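import Mathlib

/-! MP_637dc3_nt, dichotomy theorem, module D/Pigeon, size M.

Iterated pigeonhole: many integer sequences contain many whose differences satisfy a recursion with leading coefficient `b`.

PROOF. Induction on `T`. `T = 0`: `G = F`, `v = u`. Step `T → T + 1`: `M * |b|^(T+1) = (M * |b|) * |b|^T < card F`, so the induction hypothesis (with `M * b.natAbs` for `M`) gives `G'`, `v'` with
`M * b.natAbs < card G'`. Put `k = r + T`, fix `i0 ∈ G'`, and let `ρ i = (∑ j ∈ range r, c (j+1) * (v' i (k-(j+1)) - v' i0 (k-(j+1)))) % b`, an integer in `[0, |b|)`. Some value is taken by more than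
`M` elements `G ⊆ G'` (`Finset.exists_lt_card_fiber_of_mul_lt_card_of_maps_to`, target `Finset.Ico 0 |b|` of cardinality `b.natAbs`). Fix `i1 ∈ G` and let
`v i = Function.update (v' i) k (-(∑ j ∈ range r, c (j+1) * (v' i (k-(j+1)) - v' i1 (k-(j+1)))) / b)`; the division is exact for `i ∈ G`. As `1 ≤ r ≤ k`, the indices `k - (j+1)` are `< k`, so the
values used are unchanged, the recursion at `k` holds for all pairs in `G` (difference of two pairs with `i1`), and at smaller indices it is inherited. -/

set_option autoImplicit false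

namespace MP637

theorem pigeon {ι : Type} [DecidableEq ι] (b : ℤ) (hb : b ≠ 0) (c : ℕ → ℤ) (r : ℕ) (hr : 1 ≤ r)
    (T : ℕ) : ∀ (M : ℕ) (F : Finset ι) (u : ι → ℕ → ℤ), M * b.natAbs ^ T < F.card →
      ∃ (G : Finset ι) (v : ι → ℕ → ℤ), G ⊆ F ∧ M < G.card ∧ (∀ i, ∀ k < r, v i k = u i k) ∧
        ∀ i ∈ G, ∀ i' ∈ G, ∀ k, r ≤ k → k < r + T →
          b * (v i k - v i' k) =
            -∑ j ∈ Finset.range r, c (j + 1) * (v i (k - (j + 1)) - v i' (k - (j + 1))) := by
  induction T with
  | zero =>
    intro M F u h
    refine ⟨F, u, Finset.Subset.refl _, by simpa using h, fun i k _ => rfl, fun i _ i' _ k h1 h2 => ?_⟩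
    omega
  | succ T ih =>
    intro M F u h
    obtain ⟨G', v', hG', hM', hv', hrec⟩ := ih (M * b.natAbs) F u (by
      rw [mul_assoc, ← pow_succ']
      exact h)
    set S : ι → ℤ := fun i => ∑ j ∈ Finset.range r, c (j + 1) * v' i (r + T - (j + 1)) with hS
    obtain ⟨y, -, hy⟩ := Finset.exists_lt_card_fiber_of_mul_lt_card_of_maps_to
      (s := G') (t := Finset.Ico 0 |b|) (f := fun i => S i % b) (n := M)
      (fun i _ => Finset.mem_Ico.2 ⟨Int.emod_nonneg _ hb, Int.emod_lt_abs _ hb⟩) (by
        rw [Int.card_Ico]
        have h1 : (|b| - 0).toNat = b.natAbs := by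
          rw [sub_zero, Int.abs_eq_natAbs, Int.toNat_natCast]
        rw [h1, mul_comm]
        exact hM')
    refine ⟨G'.filter (fun i => S i % b = y), fun i => Function.update (v' i) (r + T) (-(S i / b)),
      (Finset.filter_subset _ _).trans hG', hy, fun i k hk => ?_, fun i hi i' hi' k h1 h2 => ?_⟩
    · beta_reduce
      rw [Function.update_of_ne (by omega), hv' i k hk]
    · have hsum : ∀ k, k ≤ r + T → r ≤ k → ∑ j ∈ Finset.range r, c (j + 1) *
          (Function.update (v' i) (r + T) (-(S i / b)) (k - (j + 1)) -
            Function.update (v' i') (r + T) (-(S i' / b)) (k - (j + 1))) =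
          ∑ j ∈ Finset.range r, c (j + 1) * (v' i (k - (j + 1)) - v' i' (k - (j + 1))) := by
        intro k hk hk'
        refine Finset.sum_congr rfl fun j hj => ?_
        rw [Function.update_of_ne (by omega), Function.update_of_ne (by omega)]
      beta_reduce
      rw [hsum k (by omega) h1]
      rcases Nat.lt_or_ge k (r + T) with h3 | h3
      · rw [Function.update_of_ne (by omega), Function.update_of_ne (by omega)]
        exact hrec i (Finset.mem_filter.1 hi).1 i' (Finset.mem_filter.1 hi').1 k h1 h3
      · have h4 : k = r + T := by omega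
        subst h4
        rw [Function.update_self, Function.update_self]
        have h5 := (Finset.mem_filter.1 hi).2
        have h6 := (Finset.mem_filter.1 hi').2
        have h7 := Int.mul_ediv_add_emod (S i) b
        have h8 := Int.mul_ediv_add_emod (S i') b
        have h9 : ∑ j ∈ Finset.range r, c (j + 1) *
            (v' i (r + T - (j + 1)) - v' i' (r + T - (j + 1))) = S i - S i' := by
          rw [hS]
          beta_reduce
          rw [← Finset.sum_sub_distrib]
          refine Finset.sum_congr rfl fun j _ => ?_
          ring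
        rw [h9]
        have h5' : S i % b = y := h5
        have h6' : S i' % b = y := h6
        linear_combination (-1 : ℤ) * h7 + h8 + h5' - h6'

end MP637
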