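import Mathlib
import Pool.Agent.Work.MP_637dc3_nt.D.Pigeon

/-! MP_637dc3_nt, dichotomy theorem, module D/Cells, size M.

A nonzero integer sequence satisfying the recursion and close to a multiple of `(1, ω, ω^2, ..)`.

PROOF. Apply `pigeon` with `ι = ℕ`, `F = Finset.range (Q + 1)`, `M = K^(r-1)`, `u i j = ⌊(i : ℝ) * ω^j⌋` (so `u i 0 = i`). Get `G`, `v`, `K^(r-1) < card G`. Map `G` to `Fin (r - 1) → Fin K` (cardinality
`K^(r-1)`): `i ↦ (j ↦ ⌊K * Int.fract (i * ω^(j+1))⌋)`, a number in `0..K-1`. Two different `i, i' ∈ G` have the same image (`Finset.exists_ne_map_eq_of_card_lt_of_maps_to`).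
`w k = v i k - v i' k` works: `w 0 = i - i' ≠ 0`, `|w 0| ≤ Q` (`G ⊆ range (Q+1)`), and for `j < r`: `w j - w 0 * ω^j = -(fract (i ω^j) - fract (i' ω^j))` has absolute value `≤ 1 / K` (both in the
same cell of length `1 / K`; for `j = 0` it is `0`). The recursion is the last clause of `pigeon`. -/

set_option autoImplicit false

namespace MP637

private theorem abs_lt_of_floor {x y : ℝ} (hx : 0 ≤ x) (hy : 0 ≤ y) (h : ⌊x⌋₊ = ⌊y⌋₊) :
    |x - y| < 1 := by
  have h1 := Nat.floor_le hx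
  have h2 := Nat.lt_floor_add_one x
  have h3 := Nat.floor_le hy
  have h4 := Nat.lt_floor_add_one y
  rw [h] at h1 h2
  rw [abs_lt]
  constructor <;> linarith

theorem cells (ω : ℝ) (b : ℤ) (hb : b ≠ 0) (c : ℕ → ℤ) (r T K Q : ℕ) (hr : 1 ≤ r) (hK : 1 ≤ K)
    (h : K ^ (r - 1) * b.natAbs ^ T < Q + 1) :
    ∃ v : ℕ → ℤ, v 0 ≠ 0 ∧ |v 0| ≤ (Q : ℤ) ∧
      (∀ j < r, |(v j : ℝ) - (v 0 : ℝ) * ω ^ j| ≤ 1 / (K : ℝ)) ∧
      ∀ k, r ≤ k → k < r + T →
        b * v k = -∑ j ∈ Finset.range r, c (j + 1) * v (k - (j + 1)) := by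
  obtain ⟨G, v, hGF, hcard, hvu, hrec⟩ := pigeon b hb c r hr T (K ^ (r - 1)) (Finset.range (Q + 1))
    (fun i j => ⌊(i : ℝ) * ω ^ j⌋) (by rw [Finset.card_range]; exact h)
  have hK0 : (0 : ℝ) < K := by exact_mod_cast hK
  obtain ⟨i, hi, i', hi', hne, hmap⟩ := Finset.exists_ne_map_eq_of_card_lt_of_maps_to
    (s := G) (t := Fintype.piFinset (fun _ : Fin (r - 1) => Finset.range K))
    (f := fun i j => ⌊(K : ℝ) * Int.fract ((i : ℝ) * ω ^ ((j : ℕ) + 1))⌋₊)
    (by
      rw [Fintype.card_piFinset, Finset.prod_const, Finset.card_univ, Fintype.card_fin,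
        Finset.card_range]
      exact hcard)
    (by
      intro i _
      rw [Finset.mem_coe, Fintype.mem_piFinset]
      intro j
      rw [Finset.mem_range, Nat.floor_lt (mul_nonneg hK0.le (Int.fract_nonneg _))]
      exact mul_lt_of_lt_one_right hK0 (Int.fract_lt_one _))
  have hr0 : 0 < r := hr
  have h0 : v i 0 - v i' 0 = (i : ℤ) - i' := by
    rw [hvu i 0 hr0, hvu i' 0 hr0]
    simp
  have hiQ := Finset.mem_range.1 (hGF hi)
  have hiQ' := Finset.mem_range.1 (hGF hi')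
  refine ⟨fun k => v i k - v i' k, ?_, ?_, ?_, ?_⟩
  · beta_reduce
    rw [h0]
    intro h1
    apply hne
    omega
  · beta_reduce
    rw [h0, abs_le]
    constructor <;> omega
  · intro j hj
    beta_reduce
    have h1 : ((v i j - v i' j : ℤ) : ℝ) - ((v i 0 - v i' 0 : ℤ) : ℝ) * ω ^ j =
        -(Int.fract ((i : ℝ) * ω ^ j) - Int.fract ((i' : ℝ) * ω ^ j)) := by
      rw [h0, hvu i j hj, hvu i' j hj, Int.fract, Int.fract]
      push_cast
      ring
    rw [h1, abs_neg]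
    rcases Nat.eq_zero_or_pos j with hj0 | hj0
    · subst hj0
      rw [pow_zero, mul_one, mul_one, Int.fract_natCast, Int.fract_natCast, sub_zero, abs_zero]
      positivity
    · obtain ⟨j', rfl⟩ : ∃ j', j = j' + 1 := ⟨j - 1, by omega⟩
      have h2 := congrFun hmap ⟨j', by omega⟩
      have h3 := abs_lt_of_floor
        (mul_nonneg hK0.le (Int.fract_nonneg ((i : ℝ) * ω ^ (j' + 1))))
        (mul_nonneg hK0.le (Int.fract_nonneg ((i' : ℝ) * ω ^ (j' + 1)))) h2
      rw [← mul_sub, abs_mul, abs_of_pos hK0] at h3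
      rw [le_div_iff₀ hK0, mul_comm]
      exact h3.le
  · intro k h1 h2
    exact hrec i hi i' hi' k h1 h2

end MP637
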