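import Pool.Agent.Work.MP_637dc3_nt.D.Defs

/-! MP_637dc3_nt, dichotomy theorem, module D/Coeff, size S-M.

The coefficients of an integer polynomial of degree at most `r` are bounded by a constant times its largest value at `0, .., r`.

PROOF. Let `W` be the Vandermonde matrix over `ℝ` of the nodes `0, .., r` (invertible: `Matrix.det_vandermonde_ne_zero_iff`). The vector of coefficients (`Fin (r+1)`) is `W⁻¹` times the vector
of values, so `|P.coeff j| ≤ K * max_s |P(s)|` with `K = 1 + ∑ i j, |W⁻¹ i j|`. Choose `s ≤ r` with `|P.eval s|` maximal (`Finset.exists_max_image` on `range (r+1)`).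
`P.coeff j = 0` for `j > r`. -/

set_option autoImplicit false

open Polynomial

namespace MP637

theorem coeff_le (r : ℕ) : ∃ K : ℝ, 0 < K ∧ ∀ P : ℤ[X], P.natDegree ≤ r →
    ∃ s : ℕ, s ≤ r ∧ ∀ j, |(P.coeff j : ℝ)| ≤ K * |((P.eval (s : ℤ) : ℤ) : ℝ)| := by
  classical
  set v : Fin (r + 1) → ℝ := fun i => (i : ℕ) with hv
  set W : Matrix (Fin (r + 1)) (Fin (r + 1)) ℝ := Matrix.vandermonde v with hW
  have hdet : W.det ≠ 0 := by
    rw [hW, Matrix.det_vandermonde_ne_zero_iff]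
    intro a b hab
    simp only [hv, Nat.cast_inj] at hab
    exact Fin.ext hab
  have hinv : W⁻¹ * W = 1 := Matrix.nonsing_inv_mul W (isUnit_iff_ne_zero.mpr hdet)
  have hS : 0 ≤ ∑ i, ∑ j, |W⁻¹ i j| :=
    Finset.sum_nonneg fun i _ => Finset.sum_nonneg fun j _ => abs_nonneg _
  refine ⟨1 + ∑ i, ∑ j, |W⁻¹ i j|, by linarith, ?_⟩
  intro P hP
  obtain ⟨s, hs, hmax⟩ := Finset.exists_max_image (Finset.range (r + 1))
    (fun s : ℕ => |((P.eval (s : ℤ) : ℤ) : ℝ)|) ⟨0, by simp⟩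
  rw [Finset.mem_range] at hs
  refine ⟨s, by omega, fun j => ?_⟩
  by_cases hj : j < r + 1
  · have hval : ∀ i : Fin (r + 1), ((P.eval ((i : ℕ) : ℤ) : ℤ) : ℝ) =
        ∑ k : Fin (r + 1), W i k * (P.coeff k : ℝ) := by
      intro i
      rw [Polynomial.eval_eq_sum_range' (n := r + 1) (by omega)]
      push_cast
      rw [← Fin.sum_univ_eq_sum_range (fun k => (P.coeff k : ℝ) * ((i : ℕ) : ℝ) ^ k)]
      refine Finset.sum_congr rfl fun k _ => ?_
      rw [hW, Matrix.vandermonde_apply, mul_comm]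
    have hco : (P.coeff j : ℝ) = ∑ i : Fin (r + 1), W⁻¹ ⟨j, hj⟩ i *
        ((P.eval ((i : ℕ) : ℤ) : ℤ) : ℝ) := by
      have h1 : ∀ i : Fin (r + 1), W⁻¹ ⟨j, hj⟩ i * ((P.eval ((i : ℕ) : ℤ) : ℤ) : ℝ) =
          ∑ k : Fin (r + 1), W⁻¹ ⟨j, hj⟩ i * W i k * (P.coeff k : ℝ) := by
        intro i
        rw [hval i, Finset.mul_sum]
        refine Finset.sum_congr rfl fun k _ => by ring
      rw [Finset.sum_congr rfl fun i _ => h1 i, Finset.sum_comm]
      have h2 : ∀ k : Fin (r + 1), ∑ i, W⁻¹ ⟨j, hj⟩ i * W i k * (P.coeff k : ℝ) =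
          (if (⟨j, hj⟩ : Fin (r + 1)) = k then 1 else 0) * (P.coeff k : ℝ) := by
        intro k
        rw [← Finset.sum_mul]
        congr 1
        have := congrFun (congrFun hinv ⟨j, hj⟩) k
        rw [Matrix.mul_apply, Matrix.one_apply] at this
        exact this
      rw [Finset.sum_congr rfl fun k _ => h2 k]
      simp
    rw [hco]
    calc |∑ i : Fin (r + 1), W⁻¹ ⟨j, hj⟩ i * ((P.eval ((i : ℕ) : ℤ) : ℤ) : ℝ)|
        ≤ ∑ i : Fin (r + 1), |W⁻¹ ⟨j, hj⟩ i * ((P.eval ((i : ℕ) : ℤ) : ℤ) : ℝ)| :=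
          Finset.abs_sum_le_sum_abs _ _
      _ ≤ ∑ i : Fin (r + 1), |W⁻¹ ⟨j, hj⟩ i| * |((P.eval (s : ℤ) : ℤ) : ℝ)| := by
          refine Finset.sum_le_sum fun i _ => ?_
          rw [abs_mul]
          exact mul_le_mul_of_nonneg_left (hmax i (Finset.mem_range.mpr i.2)) (abs_nonneg _)
      _ = (∑ i : Fin (r + 1), |W⁻¹ ⟨j, hj⟩ i|) * |((P.eval (s : ℤ) : ℤ) : ℝ)| := by
          rw [Finset.sum_mul]
      _ ≤ (1 + ∑ i, ∑ j, |W⁻¹ i j|) * |((P.eval (s : ℤ) : ℤ) : ℝ)| := by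
          refine mul_le_mul_of_nonneg_right ?_ (abs_nonneg _)
          have h3 : (∑ i, |W⁻¹ ⟨j, hj⟩ i|) ≤ ∑ i, ∑ j, |W⁻¹ i j| :=
            Finset.single_le_sum (f := fun i => ∑ j, |W⁻¹ i j|)
            (fun i _ => Finset.sum_nonneg fun j _ => abs_nonneg _) (Finset.mem_univ (⟨j, hj⟩ : Fin (r + 1)))
          linarith
  · rw [Polynomial.coeff_eq_zero_of_natDegree_lt (by omega)]
    simp only [Int.cast_zero, abs_zero]
    exact mul_nonneg (by linarith) (abs_nonneg _)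

end MP637
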