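import Mathlib

/-! MP_637dc3_nt, dichotomy theorem, module D/Lattice, size M-L.

From a recursion with a large leading coefficient `P(s)` to a simultaneous approximation of `ξ, .., ξ^m`.

PROOF. `ω = 1 / (ξ - s)` (`ξ ≠ s`), `b = P.eval s`, `c j = (taylor s P).coeff j`, so `c 0 = b` (`taylor_coeff_zero`), `c j = 0` for `j > r` (`natDegree_taylor`), and
`P(ξ) = ∑ j ≤ r, c j (ξ - s)^j` (`taylor` is `P.comp (X + C s)`). `c j` is a fixed integer combination of the coefficients of `P` (`taylor_coeff`, `hasseDeriv`), so `|c j| ≤ K2 |b|` for all `j`, with `K2`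
depending on `r`, `K1` (`s ≤ r`).
(1) `E k = v k - v 0 ω^k`: for `r ≤ k ≤ m`, from `hrec` and `b ω^k + ∑ j in 1..r, c j ω^(k-j) = ω^k P(ξ)`: `b E k = -∑ j in 1..r, c j E (k-j) - v 0 ω^k P(ξ)`, hence
`|E k| ≤ r K2 max_{i<k} |E i| + |ω|^k δ` (`hsmall`, divide by `|b| > 0`). By induction `|E k| ≤ K3 δ` for all `k ≤ m` (`K3` depends on `ξ, r, m, K1`; there are finitely many `s ≤ r`, so `|ω| ≤ Ω` with
`Ω = max_s 1 / |ξ - s|`).
(2) `z j = ∑ k in range (j+1), binom(j, k) s^(j-k) v (m - k)` for `j ≤ m`. Since `∑ k, binom(j,k) s^(j-k) (ξ - s)^k = ξ^j` and `ω^(m-k) = ω^m (ξ - s)^k`: `|z j - v 0 ω^m ξ^j| ≤ K4 δ`. So with `z = z 0 = v m`: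
`|z ξ^j - z j| ≤ K0 δ` for `j ≤ m`, and `|z| ≤ |v 0| Ω^m + K4 δ ≤ K0 |v 0|` (`|v 0| ≥ 1 > K0 δ`).
(3) `z ≠ 0`: if `z = 0` then `|z j| ≤ K0 δ < 1`, so `z j = 0` for all `j ≤ m`; binomial inversion: `v (m - j) = ∑ k in range (j+1), binom(j, k) (-s)^(j-k) z k = 0` for all `j ≤ m` (or by strong induction on
`j`: `z j = v (m-j) + ` combination of `v (m-k)`, `k < j`), in particular `v 0 = 0`: contradiction. -/

set_option autoImplicit false

open Polynomial

namespace MP637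

private theorem tay_coeff (s : ℤ) (P : ℤ[X]) (r : ℕ) (h : P.natDegree ≤ r) (j : ℕ) :
    (taylor s P).coeff j =
      ∑ i ∈ Finset.range (r + 1), ((i.choose j : ℤ) * P.coeff i) * s ^ (i - j) := by
  rw [taylor_coeff, hasseDeriv_apply,
    Polynomial.sum_over_range' _ (fun i => by simp) (r + 1) (Nat.lt_succ_of_le h),
    eval_finsetSum]
  refine Finset.sum_congr rfl fun i _ => ?_
  rw [eval_monomial]

private theorem aeval_tay (ξ : ℝ) (s : ℤ) (P : ℤ[X]) (r : ℕ) (h : P.natDegree ≤ r) :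
    aeval ξ P = ∑ j ∈ Finset.range (r + 1), ((taylor s P).coeff j : ℝ) * (ξ - s) ^ j := by
  have h1 : aeval (ξ - (s : ℝ)) (taylor s P) = aeval ξ P := by
    rw [taylor_apply, aeval_comp]
    congr 1
    simp
  rw [← h1, aeval_eq_sum_range' (n := r + 1)
    (by rw [natDegree_taylor]; exact Nat.lt_succ_of_le h)]
  refine Finset.sum_congr rfl fun j _ => ?_
  rw [zsmul_eq_mul]

/-- the recursion propagates the approximation -/
private theorem rec_bd {r m : ℕ} (hr : 1 ≤ r) {K2 Om δ : ℝ} (hK2 : 0 ≤ K2) (hOm : 1 ≤ Om)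
    (hδ : 0 < δ) {E : ℕ → ℝ} (h0 : ∀ j < r, |E j| ≤ δ)
    (h1 : ∀ k, r ≤ k → k ≤ m → |E k| ≤ K2 * ∑ j ∈ Finset.range r, |E (k - (j + 1))| + Om * δ) :
    ∀ k ≤ m, |E k| ≤ (1 + r * K2 + Om) ^ (k + 1) * δ := by
  have hW : 1 ≤ 1 + r * K2 + Om := by
    have : 0 ≤ (r : ℝ) * K2 := by positivity
    linarith
  intro k
  induction k using Nat.strong_induction_on with
  | _ k ih =>
    intro hk
    rcases lt_or_ge k r with h2 | h2
    · refine (h0 k h2).trans ?_
      exact le_mul_of_one_le_left hδ.le (one_le_pow₀ hW)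
    · have h3 : ∑ j ∈ Finset.range r, |E (k - (j + 1))| ≤
          ∑ j ∈ Finset.range r, (1 + r * K2 + Om) ^ k * δ := by
        refine Finset.sum_le_sum fun j hj => ?_
        have hj' := Finset.mem_range.1 hj
        refine (ih (k - (j + 1)) (by omega) (by omega)).trans ?_
        refine mul_le_mul_of_nonneg_right ?_ hδ.le
        exact pow_le_pow_right₀ hW (by omega)
      rw [Finset.sum_const, Finset.card_range, nsmul_eq_mul] at h3
      have h4 : (1 : ℝ) ≤ (1 + r * K2 + Om) ^ k := one_le_pow₀ hW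
      calc |E k| ≤ K2 * ∑ j ∈ Finset.range r, |E (k - (j + 1))| + Om * δ := h1 k h2 hk
        _ ≤ K2 * (r * ((1 + r * K2 + Om) ^ k * δ)) + Om * (1 * δ) := by
          rw [one_mul]
          gcongr
        _ ≤ K2 * (r * ((1 + r * K2 + Om) ^ k * δ)) + Om * ((1 + r * K2 + Om) ^ k * δ) := by
          gcongr
        _ = (r * K2 + Om) * ((1 + r * K2 + Om) ^ k * δ) := by ring
        _ ≤ (1 + r * K2 + Om) * ((1 + r * K2 + Om) ^ k * δ) := by
          refine mul_le_mul_of_nonneg_right (by linarith) (by positivity)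
        _ = (1 + r * K2 + Om) ^ (k + 1) * δ := by ring

theorem lattice_point (ξ : ℝ) (hξ : Irrational ξ) (r m : ℕ) (hr : 1 ≤ r) (hm : r ≤ m) (K1 : ℝ)
    (hK1 : 0 < K1) :
    ∃ K0 : ℝ, 0 < K0 ∧ ∀ (s : ℕ), s ≤ r → ∀ (P : ℤ[X]), P.natDegree ≤ r →
      (∀ j, |(P.coeff j : ℝ)| ≤ K1 * |((P.eval (s : ℤ) : ℤ) : ℝ)|) → P.eval (s : ℤ) ≠ 0 →
      ∀ (v : ℕ → ℤ) (δ : ℝ), 0 < δ → K0 * δ < 1 → v 0 ≠ 0 →
        (∀ j < r, |(v j : ℝ) - (v 0 : ℝ) * (1 / (ξ - s)) ^ j| ≤ δ) →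
        (∀ k, r ≤ k → k ≤ m → P.eval (s : ℤ) * v k =
          -∑ j ∈ Finset.range r, (taylor (s : ℤ) P).coeff (j + 1) * v (k - (j + 1))) →
        |aeval ξ P| * |(v 0 : ℝ)| ≤ |((P.eval (s : ℤ) : ℤ) : ℝ)| * δ →
        ∃ z : ℤ, z ≠ 0 ∧ |(z : ℝ)| ≤ K0 * |(v 0 : ℝ)| ∧
          ∀ j ≤ m, ∃ y : ℤ, |(z : ℝ) * ξ ^ j - (y : ℝ)| ≤ K0 * δ := by
  classical
  set Om : ℝ := 1 + |ξ| + ∑ t ∈ Finset.range (r + 1), |1 / (ξ - (t : ℝ))| with hOm
  have hsum0 : 0 ≤ ∑ t ∈ Finset.range (r + 1), |1 / (ξ - (t : ℝ))| :=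
    Finset.sum_nonneg fun _ _ => abs_nonneg _
  have hOm1 : 1 ≤ Om := by
    have := abs_nonneg ξ
    linarith
  have hOmξ : |ξ| ≤ Om := by linarith
  have hOms : ∀ s : ℕ, s ≤ r → |1 / (ξ - (s : ℝ))| ≤ Om := by
    intro s hs
    have h1 : |1 / (ξ - (s : ℝ))| ≤ ∑ t ∈ Finset.range (r + 1), |1 / (ξ - (t : ℝ))| :=
      Finset.single_le_sum (f := fun t : ℕ => |1 / (ξ - (t : ℝ))|) (fun _ _ => abs_nonneg _)
        (Finset.mem_range.2 (Nat.lt_succ_of_le hs))
    have := abs_nonneg ξ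
    linarith
  set K2 : ℝ := K1 * ∑ j ∈ Finset.range (r + 1), ∑ i ∈ Finset.range (r + 1),
    (i.choose j : ℝ) * (r : ℝ) ^ (i - j) with hK2
  have hK2n : 0 ≤ K2 := by positivity
  set W : ℝ := 1 + r * K2 + Om ^ m with hW
  have hOmm : 1 ≤ Om ^ m := one_le_pow₀ hOm1
  have hW1 : 1 ≤ W := by
    have : 0 ≤ (r : ℝ) * K2 := by positivity
    linarith
  set K3 : ℝ := W ^ (m + 1) with hK3
  have hK3n : 0 ≤ K3 := by positivity
  set K4 : ℝ := (1 + (r : ℝ)) ^ m * K3 with hK4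
  have hK4n : 0 ≤ K4 := by positivity
  refine ⟨(K4 + 1) * (Om ^ m + 1), by positivity, ?_⟩
  intro s hs P hP hcoef hPs v δ hδ hKδ hv0 hvj hrec hsmall
  have hsr : (s : ℝ) ≤ r := by exact_mod_cast hs
  have hs0 : (0 : ℝ) ≤ s := Nat.cast_nonneg _
  set b : ℤ := P.eval (s : ℤ) with hb
  have hb0 : (0 : ℝ) < |(b : ℝ)| := abs_pos.2 (by exact_mod_cast hPs)
  set c : ℕ → ℤ := fun j => (taylor (s : ℤ) P).coeff j with hc
  have hc0 : c 0 = b := by
    rw [hc]
    simp only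
    rw [taylor_coeff_zero]
  have hcb : ∀ j ≤ r, |(c j : ℝ)| ≤ K2 * |(b : ℝ)| := by
    intro j hj
    rw [hc]
    simp only
    rw [tay_coeff (s : ℤ) P r hP j]
    push_cast
    calc |∑ i ∈ Finset.range (r + 1), ((i.choose j : ℝ) * (P.coeff i : ℝ)) * (s : ℝ) ^ (i - j)|
        ≤ ∑ i ∈ Finset.range (r + 1), |((i.choose j : ℝ) * (P.coeff i : ℝ)) * (s : ℝ) ^ (i - j)| :=
          Finset.abs_sum_le_sum_abs _ _
      _ ≤ ∑ i ∈ Finset.range (r + 1), K1 * |(b : ℝ)| * ((i.choose j : ℝ) * (r : ℝ) ^ (i - j)) := by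
          refine Finset.sum_le_sum fun i _ => ?_
          rw [abs_mul, abs_mul, Nat.abs_cast, abs_of_nonneg (pow_nonneg hs0 _)]
          calc (i.choose j : ℝ) * |(P.coeff i : ℝ)| * (s : ℝ) ^ (i - j)
              ≤ (i.choose j : ℝ) * (K1 * |(b : ℝ)|) * (r : ℝ) ^ (i - j) := by
                have := hcoef i
                gcongr
            _ = K1 * |(b : ℝ)| * ((i.choose j : ℝ) * (r : ℝ) ^ (i - j)) := by ring
      _ = K1 * |(b : ℝ)| * ∑ i ∈ Finset.range (r + 1), (i.choose j : ℝ) * (r : ℝ) ^ (i - j) := by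
          rw [Finset.mul_sum]
      _ ≤ K1 * |(b : ℝ)| * ∑ j ∈ Finset.range (r + 1), ∑ i ∈ Finset.range (r + 1),
            (i.choose j : ℝ) * (r : ℝ) ^ (i - j) := by
          refine mul_le_mul_of_nonneg_left ?_ (by positivity)
          exact Finset.single_le_sum (f := fun j : ℕ => ∑ i ∈ Finset.range (r + 1),
            (i.choose j : ℝ) * (r : ℝ) ^ (i - j)) (fun _ _ => by positivity)
            (Finset.mem_range.2 (Nat.lt_succ_of_le hj))
      _ = K2 * |(b : ℝ)| := by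
          rw [hK2]
          ring
  have hξs : ξ - (s : ℝ) ≠ 0 := by
    intro h1
    exact hξ ⟨(s : ℚ), by push_cast; linarith⟩
  set ω : ℝ := 1 / (ξ - (s : ℝ)) with hω
  have hωm : ω * (ξ - s) = 1 := by
    rw [hω]
    field_simp
  have hωb : |ω| ≤ Om := hOms s hs
  have hωpow : ∀ k j : ℕ, j ≤ k → ω ^ k * (ξ - s) ^ j = ω ^ (k - j) := by
    intro k j hjk
    have h1 : ω ^ k = ω ^ (k - j) * ω ^ j := by
      rw [← pow_add, Nat.sub_add_cancel hjk]
    rw [h1, mul_assoc, ← mul_pow, hωm, one_pow, mul_one]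
  have hPξ : aeval ξ P = ∑ j ∈ Finset.range (r + 1), (c j : ℝ) * (ξ - s) ^ j := by
    have := aeval_tay ξ (s : ℤ) P r hP
    push_cast at this
    exact this
  -- the errors
  set E : ℕ → ℝ := fun k => (v k : ℝ) - (v 0 : ℝ) * ω ^ k with hE
  have hEr : ∀ k, r ≤ k → k ≤ m →
      |E k| ≤ K2 * ∑ j ∈ Finset.range r, |E (k - (j + 1))| + Om ^ m * δ := by
    intro k hk1 hk2
    have h1 : (b : ℝ) * (v k : ℝ) = -∑ j ∈ Finset.range r, (c (j + 1) : ℝ) * (v (k - (j + 1)) : ℝ) := by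
      have := hrec k hk1 hk2
      exact_mod_cast this
    have h2 : ω ^ k * aeval ξ P = (b : ℝ) * ω ^ k +
        ∑ j ∈ Finset.range r, (c (j + 1) : ℝ) * ω ^ (k - (j + 1)) := by
      rw [hPξ, Finset.sum_range_succ', mul_add, pow_zero, mul_one, hc0, Finset.mul_sum]
      rw [add_comm]
      congr 1
      · ring
      · refine Finset.sum_congr rfl fun j hj => ?_
        have hj' := Finset.mem_range.1 hj
        rw [← hωpow k (j + 1) (by omega)]
        ring
    have h3 : (b : ℝ) * E k = -∑ j ∈ Finset.range r, (c (j + 1) : ℝ) * E (k - (j + 1)) -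
        (v 0 : ℝ) * ω ^ k * aeval ξ P := by
      have h4 : ∑ j ∈ Finset.range r, (c (j + 1) : ℝ) * E (k - (j + 1)) =
          ∑ j ∈ Finset.range r, (c (j + 1) : ℝ) * (v (k - (j + 1)) : ℝ) -
          (v 0 : ℝ) * ∑ j ∈ Finset.range r, (c (j + 1) : ℝ) * ω ^ (k - (j + 1)) := by
        rw [Finset.mul_sum, ← Finset.sum_sub_distrib]
        refine Finset.sum_congr rfl fun j _ => ?_
        rw [hE]
        simp only
        ring
      rw [h4, mul_assoc, h2, hE]
      simp only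
      rw [mul_sub, h1]
      ring
    have h5 : |(b : ℝ)| * |E k| ≤ |(b : ℝ)| *
        (K2 * ∑ j ∈ Finset.range r, |E (k - (j + 1))| + Om ^ m * δ) := by
      rw [← abs_mul, h3]
      calc |-∑ j ∈ Finset.range r, (c (j + 1) : ℝ) * E (k - (j + 1)) -
            (v 0 : ℝ) * ω ^ k * aeval ξ P|
          ≤ |-∑ j ∈ Finset.range r, (c (j + 1) : ℝ) * E (k - (j + 1))| +
            |(v 0 : ℝ) * ω ^ k * aeval ξ P| := abs_sub _ _
        _ ≤ ∑ j ∈ Finset.range r, K2 * |(b : ℝ)| * |E (k - (j + 1))| +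
            Om ^ m * (|(b : ℝ)| * δ) := by
          refine add_le_add ?_ ?_
          · rw [abs_neg]
            refine (Finset.abs_sum_le_sum_abs _ _).trans (Finset.sum_le_sum fun j hj => ?_)
            have hj' := Finset.mem_range.1 hj
            rw [abs_mul]
            exact mul_le_mul_of_nonneg_right (hcb (j + 1) (by omega)) (abs_nonneg _)
          · rw [abs_mul, abs_mul, abs_pow]
            calc |(v 0 : ℝ)| * |ω| ^ k * |aeval ξ P|
                = |ω| ^ k * (|aeval ξ P| * |(v 0 : ℝ)|) := by ring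
              _ ≤ Om ^ k * (|(b : ℝ)| * δ) := by gcongr
              _ ≤ Om ^ m * (|(b : ℝ)| * δ) := by
                have := pow_le_pow_right₀ hOm1 hk2
                gcongr
        _ = |(b : ℝ)| * (K2 * ∑ j ∈ Finset.range r, |E (k - (j + 1))| + Om ^ m * δ) := by
          rw [← Finset.mul_sum]
          ring
    exact le_of_mul_le_mul_left h5 hb0
  have hEb : ∀ k ≤ m, |E k| ≤ K3 * δ := by
    intro k hk
    refine (rec_bd hr hK2n hOmm hδ (fun j hj => hvj j hj) hEr k hk).trans ?_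
    refine mul_le_mul_of_nonneg_right ?_ hδ.le
    exact pow_le_pow_right₀ hW1 (by omega)
  -- the lattice point
  set zz : ℕ → ℤ := fun j => ∑ k ∈ Finset.range (j + 1),
    (j.choose k : ℤ) * (s : ℤ) ^ (j - k) * v (m - k) with hzz
  have hzb : ∀ j ≤ m, |(zz j : ℝ) - (v 0 : ℝ) * ω ^ m * ξ ^ j| ≤ K4 * δ := by
    intro j hj
    have h1 : ω ^ m * ξ ^ j = ∑ k ∈ Finset.range (j + 1),
        (j.choose k : ℝ) * (s : ℝ) ^ (j - k) * ω ^ (m - k) := by
      have h2 : ξ ^ j = ((ξ - s) + s) ^ j := by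
        congr 1
        ring
      rw [h2, add_pow, Finset.mul_sum]
      refine Finset.sum_congr rfl fun k hk => ?_
      have hk' := Finset.mem_range.1 hk
      rw [← hωpow m k (by omega)]
      ring
    have h3 : (zz j : ℝ) - (v 0 : ℝ) * ω ^ m * ξ ^ j = ∑ k ∈ Finset.range (j + 1),
        (j.choose k : ℝ) * (s : ℝ) ^ (j - k) * E (m - k) := by
      rw [mul_assoc, h1, hzz]
      simp only
      push_cast
      rw [Finset.mul_sum, ← Finset.sum_sub_distrib]
      refine Finset.sum_congr rfl fun k _ => ?_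
      rw [hE]
      simp only
      ring
    rw [h3]
    calc |∑ k ∈ Finset.range (j + 1), (j.choose k : ℝ) * (s : ℝ) ^ (j - k) * E (m - k)|
        ≤ ∑ k ∈ Finset.range (j + 1), |(j.choose k : ℝ) * (s : ℝ) ^ (j - k) * E (m - k)| :=
          Finset.abs_sum_le_sum_abs _ _
      _ ≤ ∑ k ∈ Finset.range (j + 1), (1 : ℝ) ^ k * (s : ℝ) ^ (j - k) * (j.choose k : ℝ) *
            (K3 * δ) := by
          refine Finset.sum_le_sum fun k _ => ?_
          rw [abs_mul, abs_mul, Nat.abs_cast, abs_of_nonneg (pow_nonneg hs0 _), one_pow, one_mul]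
          have := hEb (m - k) (Nat.sub_le _ _)
          calc (j.choose k : ℝ) * (s : ℝ) ^ (j - k) * |E (m - k)|
              ≤ (j.choose k : ℝ) * (s : ℝ) ^ (j - k) * (K3 * δ) := by gcongr
            _ = _ := by ring
      _ = (1 + (s : ℝ)) ^ j * (K3 * δ) := by
          rw [← Finset.sum_mul, ← add_pow]
      _ ≤ (1 + (r : ℝ)) ^ m * (K3 * δ) := by
          refine mul_le_mul_of_nonneg_right ?_ (by positivity)
          calc (1 + (s : ℝ)) ^ j ≤ (1 + (r : ℝ)) ^ j := by gcongr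
            _ ≤ (1 + (r : ℝ)) ^ m := pow_le_pow_right₀ (by linarith [hs0.trans hsr]) hj
      _ = K4 * δ := by
          rw [hK4]
          ring
  have hz0 : zz 0 = v m := by
    rw [hzz]
    simp
  have hvm : |(v m : ℝ) - (v 0 : ℝ) * ω ^ m| ≤ K4 * δ := by
    have := hzb 0 (Nat.zero_le _)
    rwa [hz0, pow_zero, mul_one] at this
  have happ : ∀ j ≤ m, |(v m : ℝ) * ξ ^ j - (zz j : ℝ)| ≤ (K4 + 1) * (Om ^ m + 1) * δ := by
    intro j hj
    have h1 : (v m : ℝ) * ξ ^ j - (zz j : ℝ) = ((v m : ℝ) - (v 0 : ℝ) * ω ^ m) * ξ ^ j -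
        ((zz j : ℝ) - (v 0 : ℝ) * ω ^ m * ξ ^ j) := by ring
    rw [h1]
    calc |((v m : ℝ) - (v 0 : ℝ) * ω ^ m) * ξ ^ j -
          ((zz j : ℝ) - (v 0 : ℝ) * ω ^ m * ξ ^ j)|
        ≤ |((v m : ℝ) - (v 0 : ℝ) * ω ^ m) * ξ ^ j| +
          |(zz j : ℝ) - (v 0 : ℝ) * ω ^ m * ξ ^ j| := abs_sub _ _
      _ ≤ K4 * δ * Om ^ m + K4 * δ := by
          refine add_le_add ?_ (hzb j hj)
          rw [abs_mul, abs_pow]
          have h2 : |ξ| ^ j ≤ Om ^ m :=
            (pow_le_pow_left₀ (abs_nonneg _) hOmξ j).trans (pow_le_pow_right₀ hOm1 hj)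
          exact mul_le_mul hvm h2 (by positivity) (by positivity)
      _ = K4 * (Om ^ m + 1) * δ := by ring
      _ ≤ (K4 + 1) * (Om ^ m + 1) * δ := by
          gcongr
          linarith
  have hv1 : (1 : ℝ) ≤ |(v 0 : ℝ)| := by
    have := Int.one_le_abs hv0
    exact_mod_cast this
  refine ⟨v m, ?_, ?_, fun j hj => ⟨zz j, happ j hj⟩⟩
  · intro hvm0
    apply hv0
    have hzj : ∀ j ≤ m, zz j = 0 := by
      intro j hj
      have h1 := (happ j hj).trans_lt hKδ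
      rw [hvm0, Int.cast_zero, zero_mul, zero_sub, abs_neg] at h1
      have h2 : |zz j| < 1 := by exact_mod_cast h1
      exact Int.abs_lt_one_iff.1 h2
    have hvj0 : ∀ j ≤ m, v (m - j) = 0 := by
      intro j
      induction j using Nat.strong_induction_on with
      | _ j ih =>
        intro hj
        have h1 := hzj j hj
        rw [hzz] at h1
        simp only at h1
        rw [Finset.sum_range_succ, Nat.choose_self, Nat.sub_self, pow_zero] at h1
        have h2 : ∑ k ∈ Finset.range j, (j.choose k : ℤ) * (s : ℤ) ^ (j - k) * v (m - k) = 0 := by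
          refine Finset.sum_eq_zero fun k hk => ?_
          have hk' := Finset.mem_range.1 hk
          rw [ih k hk' (by omega), mul_zero]
        rw [h2] at h1
        simpa using h1
    have := hvj0 m le_rfl
    rwa [Nat.sub_self] at this
  · have hK4δ : K4 * δ ≤ 1 := by
      refine le_trans ?_ hKδ.le
      refine mul_le_mul_of_nonneg_right ?_ hδ.le
      nlinarith
    have h1 : |(v m : ℝ)| ≤ |(v m : ℝ) - (v 0 : ℝ) * ω ^ m| + |(v 0 : ℝ) * ω ^ m| := by
      have := abs_add_le ((v m : ℝ) - (v 0 : ℝ) * ω ^ m) ((v 0 : ℝ) * ω ^ m)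
      rwa [sub_add_cancel] at this
    have h2 : |(v 0 : ℝ) * ω ^ m| ≤ |(v 0 : ℝ)| * Om ^ m := by
      rw [abs_mul, abs_pow]
      gcongr
    have h3 : (Om ^ m + 1) * |(v 0 : ℝ)| ≤ (K4 + 1) * (Om ^ m + 1) * |(v 0 : ℝ)| := by
      refine mul_le_mul_of_nonneg_right ?_ (abs_nonneg _)
      exact le_mul_of_one_le_left (by positivity) (by linarith)
    nlinarith

end MP637
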