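import Pool.Agent.Work.MP_637dc3_nt.D.Defs
import Pool.Agent.Work.MP_637dc3_nt.D.Coeff
import Pool.Agent.Work.MP_637dc3_nt.D.Cells
import Pool.Agent.Work.MP_637dc3_nt.D.Lattice

/-! MP_637dc3_nt, dichotomy theorem, module D/Core, size M-L.

The case of degree at least two: good multipliers for `ξ, .., ξ^m`.

PROOF. All constants `K1, K2, ..` depend on `ξ, n, m, l, K` only (maximum over the finitely many `r` with `2 ≤ r`, `2 r ≤ n + 1`). Let `κ = (1 - l) (m - n + 1) / (2 (n - 2)) ≥ 0`, `κ < l` (`hκ`).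
Let `q ∈ STwo ξ n l K` be large, with `r`, `P`; `N = n + 2 - 2 r ≥ 1`, `ε = q^(-l)`. `coeff_le`: `s ≤ r` with `|P.coeff j| ≤ K1 |b|`, `b = P.eval s`; `b ≠ 0` as `P ≠ 0`; and `|b| ≤ K2 max |P.coeff j|`, so
`|b|^N ≤ K3 q ε^(r-1) = K3 q^(1 - (r-1) l)`.
EXPONENTS: with `η = (1 - (r-1) l) / N`: `|b| ≤ K4 q^η`, and `η (m - n + r - 1) ≤ r κ`: indeed `(1-l)(n+2-2r) - (1-(r-1)l)(n-2) = (r-2)(l n - 2) ≥ 0`, i.e. `η ≤ (1-l)/(n-2)`, and
`2 (m-n+r-1) ≤ r (m-n+1)`; (`η < 0` is trivial; `1 - l ≥ 0`). So `|b|^(m-n+r-1) ≤ K5 q^(r κ)`.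
Let `A = K6 q^κ` (`K6` large, chosen below), `Q = ⌊A q⌋`, `K' = ⌈1 / (A ε)⌉`; `A ε = K6 q^(κ - l) ≤ 1` for large `q`, so `K' ≤ 2 / (A ε)`. `T = m - r + 1 = N + (m - n + r - 1)`:
`K'^(r-1) |b|^T ≤ (2 / (A ε))^(r-1) (K3 q ε^(r-1)) |b|^(m-n+r-1) ≤ 2^(r-1) K3 K5 A^(1-r) q^(1 + r κ) < A q` if `K6^r > 2^(r-1) K3 K5`; and `A q < Q + 1`. So `cells` applies (`ω = 1 / (ξ - s)`,
`c j = (taylor s P).coeff j`): `v` with `1 ≤ |v 0| ≤ Q ≤ A q`, `|v j - v 0 ω^j| ≤ 1 / K' ≤ A ε` for `j < r`, and the recursion for `r ≤ k < r + T = m + 1`.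
`LL (xx ξ q) P = 0` (`Ann` with `h = 1`, `r ≤ n`), so by `LL_err` (`gp_of_mem`) `q |P(ξ)| ≤ (n+1) K1 |b| ε`, hence `|P(ξ)| |v 0| ≤ |b| δ` with `δ = (1 + (n+1) K1) A ε`. For large `q`, `K0 δ < 1`. `lattice_point` gives
`z ≠ 0`, `|z| ≤ K0 A q ≤ K'' q^(1+κ)`, `|z ξ^j - y| ≤ K0 δ ≤ K'' q^(κ - l)`. -/

set_option autoImplicit false

open Polynomial Pool.Agent.Work.MP_637dc3_nt

namespace MP637

/-- the inequality of the exponents -/
private theorem expo {n m r : ℕ} (hn : 3 ≤ n) (hnm : n < m) (hr : 2 ≤ r) (hrn : 2 * r ≤ n + 1)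
    {l : ℝ} (hl : 2 / (n : ℝ) ≤ l) (hl1 : l ≤ 1) :
    (1 - ((r : ℝ) - 1) * l) * (((m + r - 1 - n : ℕ) : ℝ) / ((n + 2 - 2 * r : ℕ) : ℝ)) ≤
      r * ((1 - l) * ((m : ℝ) - n + 1) / (2 * ((n : ℝ) - 2))) := by
  have hn' : (3 : ℝ) ≤ n := by exact_mod_cast hn
  have hr' : (2 : ℝ) ≤ r := by exact_mod_cast hr
  have hd : (n : ℝ) + 1 ≤ m := by exact_mod_cast hnm
  have hN : ((n + 2 - 2 * r : ℕ) : ℝ) = (n : ℝ) + 2 - 2 * r := by
    rw [Nat.cast_sub (by omega)]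
    push_cast
    ring
  have hE : ((m + r - 1 - n : ℕ) : ℝ) = (m : ℝ) + r - 1 - n := by
    rw [Nat.cast_sub (by omega), Nat.cast_sub (by omega)]
    push_cast
    ring
  have hN1 : (1 : ℝ) ≤ (n : ℝ) + 2 - 2 * r := by
    have : (2 * r : ℝ) ≤ n + 1 := by exact_mod_cast hrn
    linarith
  rw [hN, hE]
  have hln : 2 ≤ l * n := by
    rw [div_le_iff₀ (by linarith)] at hl
    exact hl
  have h1 : (1 - ((r : ℝ) - 1) * l) / ((n : ℝ) + 2 - 2 * r) ≤ (1 - l) / ((n : ℝ) - 2) := by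
    rw [div_le_div_iff₀ (by linarith) (by linarith)]
    have : (1 - l) * ((n : ℝ) + 2 - 2 * r) - (1 - ((r : ℝ) - 1) * l) * ((n : ℝ) - 2) =
        ((r : ℝ) - 2) * (l * n - 2) := by ring
    have h2 : 0 ≤ ((r : ℝ) - 2) * (l * n - 2) := mul_nonneg (by linarith) (by linarith)
    linarith
  have he0 : (0 : ℝ) ≤ (m : ℝ) + r - 1 - n := by linarith
  have h2 : 2 * ((m : ℝ) + r - 1 - n) ≤ r * ((m : ℝ) - n + 1) := by
    have h3 : 0 ≤ ((r : ℝ) - 2) * ((m : ℝ) - n - 1) := mul_nonneg (by linarith) (by linarith)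
    nlinarith
  have h4 : 0 ≤ (1 - l) / ((n : ℝ) - 2) := div_nonneg (by linarith) (by linarith)
  calc (1 - ((r : ℝ) - 1) * l) * (((m : ℝ) + r - 1 - n) / ((n : ℝ) + 2 - 2 * r))
      = (1 - ((r : ℝ) - 1) * l) / ((n : ℝ) + 2 - 2 * r) * ((m : ℝ) + r - 1 - n) := by ring
    _ ≤ (1 - l) / ((n : ℝ) - 2) * ((m : ℝ) + r - 1 - n) := mul_le_mul_of_nonneg_right h1 he0
    _ ≤ (1 - l) / ((n : ℝ) - 2) * (r * ((m : ℝ) - n + 1) / 2) :=
        mul_le_mul_of_nonneg_left (by linarith) h4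
    _ = _ := by
        have : (n : ℝ) - 2 ≠ 0 := by linarith
        field_simp

/-- values of a polynomial are bounded by its coefficients -/
private theorem eval_le (r N : ℕ) {P : ℤ[X]} (hP : P.natDegree ≤ r) {s : ℕ}
    (hs : s ≤ r) {Y : ℝ} (hY : ∀ j, |(P.coeff j : ℝ)| ^ N ≤ Y) :
    |((P.eval (s : ℤ) : ℤ) : ℝ)| ^ N ≤ (∑ j ∈ Finset.range (r + 1), (r : ℝ) ^ j) ^ N * Y := by
  obtain ⟨j0, -, hj0⟩ := Finset.exists_max_image (Finset.range (r + 1))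
    (fun j => |(P.coeff j : ℝ)|) ⟨0, Finset.mem_range.2 (Nat.succ_pos r)⟩
  have h1 : |((P.eval (s : ℤ) : ℤ) : ℝ)| ≤
      (∑ j ∈ Finset.range (r + 1), (r : ℝ) ^ j) * |(P.coeff j0 : ℝ)| := by
    rw [Polynomial.eval_eq_sum_range' (Nat.lt_succ_of_le hP), Finset.sum_mul]
    push_cast
    refine (Finset.abs_sum_le_sum_abs _ _).trans (Finset.sum_le_sum fun j hj => ?_)
    rw [abs_mul, abs_pow, Nat.abs_cast, mul_comm]
    have h2 := hj0 j hj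
    have h3 : (s : ℝ) ^ j ≤ (r : ℝ) ^ j :=
      pow_le_pow_left₀ (Nat.cast_nonneg s) (Nat.cast_le.2 hs) j
    exact mul_le_mul h3 h2 (abs_nonneg _) (by positivity)
  calc |((P.eval (s : ℤ) : ℤ) : ℝ)| ^ N
      ≤ ((∑ j ∈ Finset.range (r + 1), (r : ℝ) ^ j) * |(P.coeff j0 : ℝ)|) ^ N :=
        pow_le_pow_left₀ (abs_nonneg _) h1 N
    _ = (∑ j ∈ Finset.range (r + 1), (r : ℝ) ^ j) ^ N * |(P.coeff j0 : ℝ)| ^ N := mul_pow _ _ _
    _ ≤ _ := mul_le_mul_of_nonneg_left (hY j0) (by positivity)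

private theorem core_r {ξ : ℝ} (hξ : Irrational ξ) {n m : ℕ} (hn : 3 ≤ n) (hnm : n < m) {l K : ℝ}
    (hl : 2 / (n : ℝ) ≤ l) (hl1 : l ≤ 1) (hK : 0 < K) {κ : ℝ}
    (hκ0 : κ = (1 - l) * ((m : ℝ) - n + 1) / (2 * ((n : ℝ) - 2))) (hκ : κ < l)
    {r : ℕ} (hr : 2 ≤ r) (hrn : 2 * r ≤ n + 1) :
    ∃ (K' : ℝ) (q0 : ℕ), 0 < K' ∧ ∀ q ∈ S ξ n l, q0 ≤ q → ∀ P : ℤ[X], Ann (xx ξ q) n r P →
      (∀ j, |(P.coeff j : ℝ)| ^ (n + 2 - 2 * r) ≤ K * ((q : ℝ) * ((q : ℝ) ^ (-l)) ^ (r - 1))) →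
      ∃ z : ℤ, z ≠ 0 ∧ |(z : ℝ)| ≤ K' * (q : ℝ) ^ (1 + κ) ∧
        ∀ j ≤ m, ∃ y : ℤ, |(z : ℝ) * ξ ^ j - (y : ℝ)| ≤ K' * (q : ℝ) ^ (-(l - κ)) := by
  have hn' : (3 : ℝ) ≤ n := by exact_mod_cast hn
  have hl0 : 0 < l := lt_of_lt_of_le (by positivity) hl
  obtain ⟨K1, hK1, hcoeff⟩ := coeff_le r
  obtain ⟨K0, hK0, hlat⟩ := lattice_point ξ hξ r m (by omega) (by omega) K1 hK1
  set N : ℕ := n + 2 - 2 * r with hN
  set e : ℕ := m + r - 1 - n with he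
  have hN1 : 1 ≤ N := by omega
  set R : ℝ := ∑ j ∈ Finset.range (r + 1), (r : ℝ) ^ j with hR
  have hR0 : 0 < R := Finset.sum_pos (fun j _ => by positivity) ⟨0, Finset.mem_range.2 (by omega)⟩
  set K3 : ℝ := R ^ N * K with hK3
  have hK3p : 0 < K3 := by positivity
  set K5 : ℝ := K3 ^ ((e : ℝ) / N) with hK5
  have hK5p : 0 < K5 := Real.rpow_pos_of_pos hK3p _
  set K6 : ℝ := 1 + 2 ^ (r - 1) * K3 * K5 with hK6
  have hK6p : 1 ≤ K6 := by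
    have : 0 ≤ 2 ^ (r - 1) * K3 * K5 := by positivity
    linarith
  set D : ℝ := 1 + ((n : ℝ) + 1) * K1 with hD
  have hD1 : 1 ≤ D := by
    have : 0 ≤ ((n : ℝ) + 1) * K1 := by positivity
    linarith
  set Z : ℝ := (1 + K0 * D) * K6 with hZ
  have hZp : 0 < Z := by positivity
  -- large q
  have hlim : ∀ᶠ q : ℕ in Filter.atTop, (q : ℝ) ^ (-(l - κ)) < 1 / Z := by
    have h1 : Filter.Tendsto (fun q : ℕ => (q : ℝ) ^ (-(l - κ))) Filter.atTop (nhds 0) :=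
      (tendsto_rpow_neg_atTop (sub_pos.2 hκ)).comp tendsto_natCast_atTop_atTop
    exact h1.eventually (gt_mem_nhds (by positivity))
  obtain ⟨q0, hq0⟩ := Filter.eventually_atTop.1 hlim
  refine ⟨K0 * D * K6, q0, by positivity, ?_⟩
  intro q hqS hq P hAnn hbd
  have hq1 : (1 : ℝ) ≤ q := by exact_mod_cast hqS.1
  have hqp : (0 : ℝ) < q := by linarith
  set ε : ℝ := (q : ℝ) ^ (-l) with hε
  have hεp : 0 < ε := Real.rpow_pos_of_pos hqp _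
  obtain ⟨hP0, hPd, hPann⟩ := hAnn
  obtain ⟨s, hs, hsj⟩ := hcoeff P hPd
  set b : ℤ := P.eval (s : ℤ) with hb
  have hb0 : b ≠ 0 := by
    intro h0
    apply hP0
    ext j
    have h1 := hsj j
    rw [h0, Int.cast_zero, abs_zero, mul_zero] at h1
    have h2 : (P.coeff j : ℝ) = 0 := abs_eq_zero.1 (le_antisymm h1 (abs_nonneg _))
    rw [coeff_zero]
    exact_mod_cast h2
  have hbabs : 0 < |(b : ℝ)| := abs_pos.2 (by exact_mod_cast hb0)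
  -- (A)
  have hA : |(b : ℝ)| ^ N ≤ K3 * ((q : ℝ) * ε ^ (r - 1)) := by
    have := eval_le r N hPd hs hbd
    rw [hK3, mul_assoc]
    exact this
  set X : ℝ := (q : ℝ) * ε ^ (r - 1) with hX
  have hXp : 0 < X := by positivity
  have hXr : X = (q : ℝ) ^ (1 - ((r : ℝ) - 1) * l) := by
    rw [hX, hε, ← Real.rpow_natCast ((q : ℝ) ^ (-l)), ← Real.rpow_mul hqp.le]
    have h1 : ((r - 1 : ℕ) : ℝ) = (r : ℝ) - 1 := by
      rw [Nat.cast_sub (by omega)]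
      norm_num
    rw [h1, Real.rpow_sub hqp, Real.rpow_one, div_eq_mul_inv, ← Real.rpow_neg hqp.le]
    congr 2
    ring
  -- (B)
  have hB : |(b : ℝ)| ^ e ≤ K5 * (q : ℝ) ^ ((r : ℝ) * κ) := by
    have hNne : (N : ℝ) ≠ 0 := by
      have : (0 : ℝ) < N := by exact_mod_cast hN1
      exact this.ne'
    have h1 : |(b : ℝ)| ^ e = (|(b : ℝ)| ^ N) ^ ((e : ℝ) / N) := by
      rw [← Real.rpow_natCast |(b : ℝ)| N, ← Real.rpow_mul hbabs.le, mul_div_cancel₀ _ hNne,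
        Real.rpow_natCast]
    rw [h1]
    calc (|(b : ℝ)| ^ N) ^ ((e : ℝ) / N) ≤ (K3 * X) ^ ((e : ℝ) / N) :=
          Real.rpow_le_rpow (by positivity) hA (by positivity)
      _ = K5 * X ^ ((e : ℝ) / N) := Real.mul_rpow hK3p.le hXp.le
      _ ≤ K5 * (q : ℝ) ^ ((r : ℝ) * κ) := by
          refine mul_le_mul_of_nonneg_left ?_ hK5p.le
          rw [hXr, ← Real.rpow_mul hqp.le]
          refine Real.rpow_le_rpow_of_exponent_le hq1 ?_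
          have := expo hn hnm hr hrn hl hl1
          rw [← hκ0] at this
          exact this
  -- (C)
  set A : ℝ := K6 * (q : ℝ) ^ κ with hAd
  have hAp : 0 < A := by
    have := Real.rpow_pos_of_pos hqp κ
    positivity
  have hAε : A * ε = K6 * (q : ℝ) ^ (-(l - κ)) := by
    rw [hAd, hε, mul_assoc, ← Real.rpow_add hqp]
    congr 2
    ring
  have hsmall : Z * (q : ℝ) ^ (-(l - κ)) < 1 := by
    have := hq0 q hq
    rw [lt_div_iff₀ hZp] at this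
    linarith
  have hpw : 0 < (q : ℝ) ^ (-(l - κ)) := Real.rpow_pos_of_pos hqp _
  have hsm : A * ε + K0 * (D * (A * ε)) < 1 := by
    have : A * ε + K0 * (D * (A * ε)) = Z * (q : ℝ) ^ (-(l - κ)) := by
      rw [hAε, hZ]
      ring
    rw [this]
    exact hsmall
  have hAεp : 0 < A * ε := by positivity
  have hAε1 : A * ε ≤ 1 := by
    have : 0 ≤ K0 * (D * (A * ε)) := by positivity
    linarith
  have hKδ : K0 * (D * (A * ε)) < 1 := by linarith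
  set Kc : ℕ := ⌈1 / (A * ε)⌉₊ with hKc
  have hKc1 : 1 ≤ Kc := Nat.one_le_iff_ne_zero.2 (Nat.ceil_pos.2 (by positivity)).ne'
  have hKc2 : 1 / (A * ε) ≤ Kc := Nat.le_ceil _
  have hKc3 : (Kc : ℝ) ≤ 2 / (A * ε) := by
    have h1 := (Nat.ceil_lt_add_one (a := 1 / (A * ε)) (by positivity)).le
    have h2 : 1 ≤ 1 / (A * ε) := by
      rw [le_div_iff₀ hAεp]
      linarith
    have h3 : (2 : ℝ) / (A * ε) = 1 / (A * ε) + 1 / (A * ε) := by ring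
    rw [h3]
    linarith
  have hKcinv : 1 / (Kc : ℝ) ≤ A * ε := by
    have h1 : (0 : ℝ) < Kc := by exact_mod_cast hKc1
    rw [div_le_iff₀ h1]
    rw [div_le_iff₀ hAεp] at hKc2
    linarith
  set Q : ℕ := ⌊A * q⌋₊ with hQ
  have hQ1 : A * q < Q + 1 := Nat.lt_floor_add_one _
  have hQ2 : (Q : ℝ) ≤ A * q := Nat.floor_le (by positivity)
  set T : ℕ := m - r + 1 with hT
  have hTN : T = N + e := by omega
  have hmain : Kc ^ (r - 1) * b.natAbs ^ T < Q + 1 := by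
    have hnat : ((b.natAbs : ℕ) : ℝ) = |(b : ℝ)| := by
      rw [Nat.cast_natAbs, Int.cast_abs]
    have hreal : ((Kc ^ (r - 1) * b.natAbs ^ T : ℕ) : ℝ) < ((Q + 1 : ℕ) : ℝ) := by
      push_cast
      rw [hnat]
      refine lt_of_le_of_lt ?_ hQ1
      rw [hTN, pow_add]
      have h1 : (Kc : ℝ) ^ (r - 1) ≤ (2 / (A * ε)) ^ (r - 1) :=
        pow_le_pow_left₀ (Nat.cast_nonneg _) hKc3 _
      have h2 : |(b : ℝ)| ^ N * |(b : ℝ)| ^ e ≤ (K3 * X) * (K5 * (q : ℝ) ^ ((r : ℝ) * κ)) :=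
        mul_le_mul hA hB (by positivity) (by positivity)
      have h3 : (2 / (A * ε)) ^ (r - 1) * ((K3 * X) * (K5 * (q : ℝ) ^ ((r : ℝ) * κ))) =
          2 ^ (r - 1) * K3 * K5 * ((q : ℝ) * (q : ℝ) ^ ((r : ℝ) * κ)) / A ^ (r - 1) := by
        rw [hX, div_pow, mul_pow]
        have h4 : ε ^ (r - 1) ≠ 0 := by positivity
        have h5 : A ^ (r - 1) ≠ 0 := by positivity
        field_simp
      refine (mul_le_mul h1 h2 (by positivity) (by positivity)).trans ?_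
      rw [h3, div_le_iff₀ (by positivity)]
      have h6 : A * q * A ^ (r - 1) = K6 ^ r * ((q : ℝ) * (q : ℝ) ^ ((r : ℝ) * κ)) := by
        have h7 : A * q * A ^ (r - 1) = A ^ r * q := by
          have h8 : A ^ r = A ^ (r - 1) * A := by
            rw [← pow_succ]
            congr 1
            omega
          rw [h8]
          ring
        rw [h7, hAd, mul_pow, ← Real.rpow_natCast ((q : ℝ) ^ κ), ← Real.rpow_mul hqp.le,
          mul_comm κ]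
        ring
      rw [h6]
      refine mul_le_mul_of_nonneg_right ?_ (by positivity)
      have h9 : K6 ^ 1 ≤ K6 ^ r := pow_le_pow_right₀ hK6p (by omega)
      rw [pow_one] at h9
      linarith
    exact_mod_cast hreal
  obtain ⟨v, hv0, hvQ, hvj, hvrec⟩ := cells (1 / (ξ - s)) b hb0
    (fun j => (taylor (s : ℤ) P).coeff j) r T Kc Q (by omega) hKc1 hmain
  -- (E)
  have hgp : Gp ξ n q ε (xx ξ q) := gp_of_mem hl0.le hqS
  have hLL : LL (xx ξ q) P = 0 := by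
    have := hPann 1 (by rw [natDegree_one]; omega)
    rwa [one_mul] at this
  have hPξ : (q : ℝ) * |aeval ξ P| ≤ ((n : ℝ) + 1) * K1 * |(b : ℝ)| * ε := by
    have h1 := LL_err hgp P (hPd.trans (by omega))
    rw [hLL, Int.cast_zero, sub_zero, abs_mul, Nat.abs_cast] at h1
    refine h1.trans ?_
    refine mul_le_mul_of_nonneg_right ?_ hεp.le
    calc ∑ j ∈ Finset.range (n + 1), |(P.coeff j : ℝ)|
        ≤ ∑ _j ∈ Finset.range (n + 1), K1 * |(b : ℝ)| := Finset.sum_le_sum fun j _ => hsj j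
      _ = ((n : ℝ) + 1) * K1 * |(b : ℝ)| := by
          rw [Finset.sum_const, Finset.card_range, nsmul_eq_mul]
          push_cast
          ring
  have hv0Q : |(v 0 : ℝ)| ≤ A * q := by
    have h1 : ((|v 0| : ℤ) : ℝ) ≤ ((Q : ℤ) : ℝ) := by exact_mod_cast hvQ
    rw [Int.cast_abs, Int.cast_natCast] at h1
    exact h1.trans hQ2
  set δ : ℝ := D * (A * ε) with hδ
  have hδp : 0 < δ := by positivity
  have hAεδ : A * ε ≤ δ := by
    rw [hδ]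
    nlinarith
  have hlast : |aeval ξ P| * |(v 0 : ℝ)| ≤ |(b : ℝ)| * δ := by
    calc |aeval ξ P| * |(v 0 : ℝ)| ≤ |aeval ξ P| * (A * q) :=
          mul_le_mul_of_nonneg_left hv0Q (abs_nonneg _)
      _ = A * ((q : ℝ) * |aeval ξ P|) := by ring
      _ ≤ A * (((n : ℝ) + 1) * K1 * |(b : ℝ)| * ε) := mul_le_mul_of_nonneg_left hPξ hAp.le
      _ = (((n : ℝ) + 1) * K1) * (|(b : ℝ)| * (A * ε)) := by ring
      _ ≤ D * (|(b : ℝ)| * (A * ε)) := by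
          refine mul_le_mul_of_nonneg_right ?_ (by positivity)
          rw [hD]
          linarith
      _ = |(b : ℝ)| * δ := by
          rw [hδ]
          ring
  obtain ⟨z, hz0, hz1, hz2⟩ := hlat s hs P hPd hsj hb0 v δ hδp hKδ hv0
    (fun j hj => (hvj j hj).trans (hKcinv.trans hAεδ))
    (fun k hk1 hk2 => hvrec k hk1 (by omega)) hlast
  refine ⟨z, hz0, ?_, fun j hj => ?_⟩
  · refine hz1.trans ?_
    calc K0 * |(v 0 : ℝ)| ≤ K0 * (A * q) := mul_le_mul_of_nonneg_left hv0Q hK0.le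
      _ = K0 * 1 * K6 * (q : ℝ) ^ (1 + κ) := by
          rw [hAd, Real.rpow_add hqp, Real.rpow_one]
          ring
      _ ≤ K0 * D * K6 * (q : ℝ) ^ (1 + κ) := by
          have := Real.rpow_pos_of_pos hqp (1 + κ)
          gcongr
  · obtain ⟨y, hy⟩ := hz2 j hj
    refine ⟨y, hy.trans (le_of_eq ?_)⟩
    rw [hδ, hAε]
    ring

theorem core {ξ : ℝ} (hξ : Irrational ξ) {n m : ℕ} (hn : 3 ≤ n) (hnm : n < m) {l K : ℝ}
    (hl : 2 / (n : ℝ) ≤ l) (hl1 : l ≤ 1) (hK : 0 < K)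
    (hκ : (1 - l) * ((m : ℝ) - n + 1) / (2 * ((n : ℝ) - 2)) < l) :
    ∃ (K' : ℝ) (q0 : ℕ), 0 < K' ∧ ∀ q ∈ STwo ξ n l K, q0 ≤ q →
      ∃ z : ℤ, z ≠ 0 ∧
        |(z : ℝ)| ≤ K' * (q : ℝ) ^ (1 + (1 - l) * ((m : ℝ) - n + 1) / (2 * ((n : ℝ) - 2))) ∧
        ∀ j ≤ m, ∃ y : ℤ, |(z : ℝ) * ξ ^ j - (y : ℝ)| ≤
          K' * (q : ℝ) ^ (-(l - (1 - l) * ((m : ℝ) - n + 1) / (2 * ((n : ℝ) - 2)))) := by
  set κ : ℝ := (1 - l) * ((m : ℝ) - n + 1) / (2 * ((n : ℝ) - 2)) with hκd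
  have hall : ∀ r : ℕ, ∃ (K' : ℝ) (q0 : ℕ), 0 < K' ∧ (2 ≤ r → 2 * r ≤ n + 1 →
      ∀ q ∈ S ξ n l, q0 ≤ q → ∀ P : ℤ[X], Ann (xx ξ q) n r P →
      (∀ j, |(P.coeff j : ℝ)| ^ (n + 2 - 2 * r) ≤ K * ((q : ℝ) * ((q : ℝ) ^ (-l)) ^ (r - 1))) →
      ∃ z : ℤ, z ≠ 0 ∧ |(z : ℝ)| ≤ K' * (q : ℝ) ^ (1 + κ) ∧
        ∀ j ≤ m, ∃ y : ℤ, |(z : ℝ) * ξ ^ j - (y : ℝ)| ≤ K' * (q : ℝ) ^ (-(l - κ))) := by
    intro r
    by_cases h : 2 ≤ r ∧ 2 * r ≤ n + 1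
    · obtain ⟨K', q0, h1, h2⟩ := core_r hξ hn hnm hl hl1 hK hκd hκ h.1 h.2
      exact ⟨K', q0, h1, fun _ _ => h2⟩
    · exact ⟨1, 0, one_pos, fun h1 h2 => absurd ⟨h1, h2⟩ h⟩
  choose Kr qr hKr hqr using hall
  refine ⟨∑ r ∈ Finset.range (n + 2), Kr r, ∑ r ∈ Finset.range (n + 2), qr r,
    Finset.sum_pos (fun r _ => hKr r) ⟨0, Finset.mem_range.2 (by omega)⟩, ?_⟩
  intro q hq hq0
  obtain ⟨hqS, r, P, hr, hrn, hAnn, hbd⟩ := hq
  have hrm : r ∈ Finset.range (n + 2) := Finset.mem_range.2 (by omega)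
  have h1 : qr r ≤ ∑ r ∈ Finset.range (n + 2), qr r :=
    Finset.single_le_sum (f := fun r => qr r) (fun _ _ => Nat.zero_le _) hrm
  have h2 : Kr r ≤ ∑ r ∈ Finset.range (n + 2), Kr r :=
    Finset.single_le_sum (f := fun r => Kr r) (fun r _ => (hKr r).le) hrm
  obtain ⟨z, hz0, hz1, hz2⟩ := hqr r hr hrn q hqS (h1.trans hq0) P hAnn hbd
  have hq1 : (1 : ℝ) ≤ q := by exact_mod_cast hqS.1
  have hqp : (0 : ℝ) < q := by linarith
  refine ⟨z, hz0, hz1.trans (mul_le_mul_of_nonneg_right h2 (Real.rpow_pos_of_pos hqp _).le),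
    fun j hj => ?_⟩
  obtain ⟨y, hy⟩ := hz2 j hj
  exact ⟨y, hy.trans (mul_le_mul_of_nonneg_right h2 (Real.rpow_pos_of_pos hqp _).le)⟩

end MP637
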