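import Pool.Agent.Work.MP_637dc3_nt.D.Defs

/-! MP_637dc3_nt, dichotomy theorem, module D/Fin, size S-M.

From multipliers of controlled size to infinitely many elements of `S ξ m μ`.

PROOF. `β > μ α ≥ 0`. For `q` large, `K q^(-β) ≤ (K' q^α)^(-μ)` with `K' = max K 1` (as `q^(β - μ α) → ∞`), and then `z` satisfies, with `b = z.natAbs ≥ 1`, `b ≤ K' q^α`,
`|b ξ^j - integer| ≤ K q^(-β) ≤ (K' q^α)^(-μ) ≤ b^(-μ)`, so `b ∈ S ξ m μ` (nearest integer: `round_le`; sign of `z`: replace `y` by `-y`). Infinitely many `b`: otherwise all `b ≤ B0`, and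
`δ = min_{1 ≤ b ≤ B0} |b ξ - round (b ξ)| > 0` (`ξ` irrational), but `|b ξ - integer| ≤ K q^(-β) < δ` for `q` large (`j = 1 ≤ m`): contradiction. -/

set_option autoImplicit false

open Polynomial Pool.Agent.Work.MP_637dc3_nt

namespace MP637

theorem infinite_of {ξ : ℝ} (hξ : Irrational ξ) {m : ℕ} (hm : 1 ≤ m) {μ α β K : ℝ} (hμ : 0 ≤ μ)
    (hα : 0 < α) (hβ : μ * α < β) (hK : 0 < K)
    (h : ∀ q0 : ℕ, ∃ q : ℕ, q0 ≤ q ∧ 1 ≤ q ∧ ∃ z : ℤ, z ≠ 0 ∧ |(z : ℝ)| ≤ K * (q : ℝ) ^ α ∧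
      ∀ j ≤ m, ∃ y : ℤ, |(z : ℝ) * ξ ^ j - (y : ℝ)| ≤ K * (q : ℝ) ^ (-β)) :
    (S ξ m μ).Infinite := by
  have hβ0 : 0 < β := lt_of_le_of_lt (mul_nonneg hμ hα.le) hβ
  have hγ : 0 < β - μ * α := sub_pos.2 hβ
  refine Set.infinite_of_forall_exists_gt fun B0 => ?_
  -- the minimal distance for small multipliers
  obtain ⟨δ, hδ, hδm⟩ : ∃ δ : ℝ, 0 < δ ∧ ∀ b : ℕ, 1 ≤ b → b ≤ B0 →
      ∀ y : ℤ, δ ≤ |(b : ℝ) * ξ - y| := by
    obtain ⟨b0, hb0, hmin⟩ := Finset.exists_min_image (Finset.Icc 1 (B0 + 1))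
      (fun b : ℕ => |(b : ℝ) * ξ - (round ((b : ℝ) * ξ) : ℝ)|) ⟨1, by simp⟩
    refine ⟨|(b0 : ℝ) * ξ - (round ((b0 : ℝ) * ξ) : ℝ)|, ?_, fun b h1 h2 y => ?_⟩
    · rw [abs_pos, sub_ne_zero]
      have h1 : b0 ≠ 0 := by
        have := (Finset.mem_Icc.1 hb0).1
        omega
      exact (hξ.natCast_mul h1).ne_int _
    · exact (hmin b (Finset.mem_Icc.2 ⟨h1, by omega⟩)).trans (round_le _ _)
  have hK' : (1 : ℝ) ≤ max K 1 := le_max_right _ _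
  have hK0 : (0 : ℝ) < max K 1 := by linarith
  have hA := ((tendsto_rpow_atTop hγ).comp tendsto_natCast_atTop_atTop).eventually_ge_atTop
    (K * (max K 1) ^ μ)
  have hB := ((tendsto_rpow_atTop hβ0).comp tendsto_natCast_atTop_atTop).eventually_gt_atTop
    (K / δ)
  obtain ⟨q0, hq0⟩ := Filter.eventually_atTop.1 (hA.and hB)
  obtain ⟨q, hq, hq1, z, hz0, hz, hy⟩ := h q0
  obtain ⟨hA', hB'⟩ := hq0 q hq
  simp only [Function.comp_apply] at hA' hB'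
  have hqp : (0 : ℝ) < q := by exact_mod_cast hq1
  have hb1 : 1 ≤ z.natAbs := Nat.one_le_iff_ne_zero.2 (Int.natAbs_ne_zero.2 hz0)
  have hbz : ((z.natAbs : ℕ) : ℝ) = |(z : ℝ)| := by
    rw [Nat.cast_natAbs, Int.cast_abs]
  have hbp : (0 : ℝ) < (z.natAbs : ℝ) := by exact_mod_cast hb1
  -- integers close to the multiples
  have hy' : ∀ j ≤ m, ∃ y : ℤ, |((z.natAbs : ℕ) : ℝ) * ξ ^ j - (y : ℝ)| ≤ K * (q : ℝ) ^ (-β) := by
    intro j hj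
    obtain ⟨y, hy1⟩ := hy j hj
    rcases le_total 0 (z : ℝ) with hs | hs
    · exact ⟨y, by rw [hbz, abs_of_nonneg hs]; exact hy1⟩
    · refine ⟨-y, ?_⟩
      rw [hbz, abs_of_nonpos hs]
      have h1 : -(z : ℝ) * ξ ^ j - ((-y : ℤ) : ℝ) = -((z : ℝ) * ξ ^ j - (y : ℝ)) := by
        push_cast
        ring
      rw [h1, abs_neg]
      exact hy1
  refine ⟨z.natAbs, ⟨hb1, fun j hj => ?_⟩, ?_⟩
  · obtain ⟨y, hy1⟩ := hy' j (Finset.mem_Icc.1 hj).2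
    refine (round_le _ y).trans (hy1.trans ?_)
    have h1 : K * (q : ℝ) ^ (-β) ≤ (max K 1 * (q : ℝ) ^ α) ^ (-μ) := by
      rw [Real.mul_rpow hK0.le (Real.rpow_nonneg hqp.le _), ← Real.rpow_mul hqp.le,
        Real.rpow_neg hK0.le, Real.rpow_neg hqp.le]
      have h2 : (q : ℝ) ^ (α * -μ) = (q : ℝ) ^ (β - μ * α) * ((q : ℝ) ^ β)⁻¹ := by
        rw [← Real.rpow_neg hqp.le, ← Real.rpow_add hqp]
        congr 1
        ring
      rw [h2, ← mul_assoc]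
      refine mul_le_mul_of_nonneg_right ?_ (inv_nonneg.2 (Real.rpow_nonneg hqp.le _))
      rw [inv_mul_eq_div, le_div_iff₀ (Real.rpow_pos_of_pos hK0 _)]
      exact hA'
    refine h1.trans (Real.rpow_le_rpow_of_nonpos hbp ?_ (neg_nonpos.2 hμ))
    rw [hbz]
    exact hz.trans (mul_le_mul_of_nonneg_right (le_max_left _ _) (Real.rpow_nonneg hqp.le _))
  · by_contra hcon
    obtain ⟨y, hy1⟩ := hy' 1 hm
    rw [pow_one] at hy1
    have h1 := (hδm z.natAbs hb1 (not_lt.1 hcon) y).trans hy1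
    rw [Real.rpow_neg hqp.le, ← div_eq_mul_inv, le_div_iff₀ (Real.rpow_pos_of_pos hqp _)] at h1
    rw [div_lt_iff₀ hδ] at hB'
    linarith [mul_comm δ ((q : ℝ) ^ β)]

end MP637
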