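import Pool.Agent.Work.MP_637dc3_nt.D.Defs

/-! MP_637dc3_nt, dichotomy theorem, module D/One, size M.

Linear annihilating polynomials give very good rational approximations of `ξ`.

PROOF. Let `q ∈ SOne ξ n l`, `P = C a1 * X + C a0` primitive (degree `≤ 1`), `x = xx ξ q`, `x 0 = q`. `hP` with `h = X^i`, `i + 1 ≤ n`: `a1 x (i+1) + a0 x i = 0`. `a1 ≠ 0`: otherwise
`a0 q = 0` (`i = 0`, `n ≥ 1`), `a0 = 0`, `P = 0`. `a1`, `a0` coprime (primitive). By induction `a1^i x i = (-a0)^i q` for `i ≤ n`; so `a1^n ∣ (-a0)^n q`, and by coprimality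
`a1^n ∣ q`. Let `b = a1.natAbs ≥ 1`; `b^n ≤ q`. `q ξ - x 1` has absolute value `≤ q^(-l)`, and `a1 x 1 = - a0 q`, so `|a1 ξ + a0| q = |a1| |q ξ - x 1| ≤ b q^(-l)`, i.e.
`|b ξ - (integer)| ≤ b q^(-l-1) ≤ b (b^n)^(-l-1) = b^(-(n l + n - 1))` (`-l-1 < 0`). So `b ∈ S ξ 1 (n l + n - 1)` (`round_le` of Work/MP_637dc3_nt/Step for the nearest integer).
Infinitely many `b`: otherwise all `b ≤ B0`, and for infinitely many `q` (arbitrarily large) the same `b` occurs (or: `δ = min_{1 ≤ b ≤ B0} |b ξ - round (b ξ)| > 0` as `ξ` is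
irrational), but `|b ξ - integer| ≤ B0 q^(-l-1) → 0`: contradiction. -/

set_option autoImplicit false

open Polynomial Pool.Agent.Work.MP_637dc3_nt

namespace MP637

private theorem oc_key {ξ : ℝ} {n : ℕ} (hn : 1 ≤ n) {l : ℝ} (hl : 0 ≤ l) {q : ℕ}
    (hq : q ∈ SOne ξ n l) : ∃ b : ℕ, 1 ≤ b ∧ b ^ n ≤ q ∧ ∃ z : ℤ,
      |(b : ℝ) * ξ - z| * q ≤ b * (q : ℝ) ^ (-l) := by
  obtain ⟨hqS, P, hPp, hP0, hPd, hPa⟩ := hq
  have g := gp_of_mem hl hqS
  set x := xx ξ q with hx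
  set a1 := P.coeff 1 with ha1
  set a0 := P.coeff 0 with ha0
  have hPe : P = C a1 * X + C a0 := Polynomial.eq_X_add_C_of_natDegree_le_one hPd
  have hrel : ∀ i, i + 1 ≤ n → a1 * x (i + 1) + a0 * x i = 0 := by
    intro i hi
    have h1 := hPa (X ^ i) (by rw [natDegree_X_pow]; exact hi)
    have h2 : X ^ i * P = C a1 * X ^ (i + 1) + C a0 * X ^ i := by
      rw [hPe]
      ring
    rw [h2, map_add, LL_C_mul, LL_C_mul, LL_X_pow, LL_X_pow] at h1
    exact h1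
  have hq0 : (q : ℤ) ≠ 0 := by
    have := g.qpos
    omega
  have ha1n : a1 ≠ 0 := by
    intro h
    have h1 := hrel 0 hn
    rw [h, g.x0, zero_mul, zero_add] at h1
    have h2 : a0 = 0 := (mul_eq_zero.1 h1).resolve_right hq0
    apply hP0
    rw [hPe, h, h2]
    simp
  have hind : ∀ i ≤ n, a1 ^ i * x i = (-a0) ^ i * q := by
    intro i
    induction i with
    | zero =>
      intro _
      rw [g.x0]
      ring
    | succ i ih =>
      intro hi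
      have h1 := ih (by omega)
      have h2 := hrel i hi
      have h3 : a1 * x (i + 1) = -(a0 * x i) := by linarith
      calc a1 ^ (i + 1) * x (i + 1) = a1 ^ i * (a1 * x (i + 1)) := by ring
        _ = -a0 * (a1 ^ i * x i) := by rw [h3]; ring
        _ = (-a0) ^ (i + 1) * q := by rw [h1]; ring
  have hcop : IsCoprime a1 a0 := by
    rw [Int.isCoprime_iff_gcd_eq_one]
    obtain ⟨u, hu⟩ := Int.gcd_dvd_left a1 a0
    obtain ⟨v, hv⟩ := Int.gcd_dvd_right a1 a0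
    have h1 : C ((Int.gcd a1 a0 : ℕ) : ℤ) ∣ P := by
      refine ⟨C u * X + C v, ?_⟩
      calc P = C a1 * X + C a0 := hPe
        _ = C (((Int.gcd a1 a0 : ℕ) : ℤ) * u) * X + C (((Int.gcd a1 a0 : ℕ) : ℤ) * v) := by
          rw [← hu, ← hv]
        _ = _ := by
          rw [C_mul, C_mul]
          ring
    have h2 := hPp _ h1
    have h3 := Int.natAbs_of_isUnit h2
    simpa using h3
  have hdvd : a1 ^ n ∣ (q : ℤ) := by
    have h1 : IsCoprime (a1 ^ n) ((-a0) ^ n) := (hcop.neg_right).pow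
    refine h1.dvd_of_dvd_mul_left ?_
    rw [← hind n le_rfl]
    exact Dvd.intro _ rfl
  have hb : 1 ≤ a1.natAbs := Int.natAbs_pos.2 ha1n
  have hbn : a1.natAbs ^ n ≤ q := by
    have h1 := Int.natAbs_dvd_natAbs.2 hdvd
    rw [Int.natAbs_pow, Int.natAbs_natCast] at h1
    exact Nat.le_of_dvd g.qpos h1
  have herr := g.err 1 hn
  rw [pow_one] at herr
  have hr0 := hrel 0 hn
  rw [g.x0, zero_add] at hr0
  have hr0' : (a1 : ℝ) * (x 1 : ℝ) + a0 * q = 0 := by exact_mod_cast hr0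
  have hmain : |(a1 : ℝ) * ξ + a0| * q ≤ |(a1 : ℝ)| * (q : ℝ) ^ (-l) := by
    have h1 : |(a1 : ℝ) * ξ + a0| * q = |(a1 : ℝ)| * |(q : ℝ) * ξ - x 1| := by
      rw [← abs_mul, ← abs_of_nonneg (Nat.cast_nonneg q : (0 : ℝ) ≤ q), ← abs_mul,
        abs_of_nonneg (Nat.cast_nonneg q : (0 : ℝ) ≤ q)]
      congr 1
      linear_combination hr0'
    rw [h1]
    exact mul_le_mul_of_nonneg_left herr (abs_nonneg _)
  have hbr : ((a1.natAbs : ℕ) : ℝ) = |(a1 : ℝ)| := by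
    rw [Nat.cast_natAbs, Int.cast_abs]
  rcases le_or_gt 0 a1 with h | h
  · refine ⟨a1.natAbs, hb, hbn, -a0, ?_⟩
    have h' : (0 : ℝ) ≤ a1 := by exact_mod_cast h
    rw [hbr]
    rw [abs_of_nonneg h'] at hmain ⊢
    have e1 : (a1 : ℝ) * ξ - ((-a0 : ℤ) : ℝ) = a1 * ξ + a0 := by
      push_cast
      ring
    rw [e1]
    exact hmain
  · refine ⟨a1.natAbs, hb, hbn, a0, ?_⟩
    have h' : (a1 : ℝ) ≤ 0 := by exact_mod_cast h.le
    rw [hbr]
    rw [abs_of_nonpos h'] at hmain ⊢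
    have e1 : -(a1 : ℝ) * ξ - (a0 : ℝ) = -(a1 * ξ + a0) := by ring
    rw [e1, abs_neg]
    exact hmain

private theorem oc_fin {ξ : ℝ} (hξ : Irrational ξ) {b : ℕ} (hb : 1 ≤ b) :
    {q : ℕ | |(b : ℝ) * ξ - (round ((b : ℝ) * ξ) : ℤ)| * q ≤ b}.Finite := by
  set δ := |(b : ℝ) * ξ - (round ((b : ℝ) * ξ) : ℤ)| with hδ
  have hδ0 : 0 < δ := by
    rw [hδ, abs_pos, sub_ne_zero]
    have h1 : Irrational ((b : ℝ) * ξ) := hξ.natCast_mul (by omega)
    exact h1.ne_int _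
  refine (Set.finite_Iic ⌊(b : ℝ) / δ⌋₊).subset fun q hq => ?_
  rw [Set.mem_ofPred_eq] at hq
  rw [Set.mem_Iic]
  refine Nat.le_floor ?_
  rw [le_div_iff₀ hδ0]
  linarith

theorem one_case {ξ : ℝ} (hξ : Irrational ξ) {n : ℕ} (hn : 1 ≤ n) {l : ℝ} (hl : 0 ≤ l)
    (h : (SOne ξ n l).Infinite) : (S ξ 1 (n * l + n - 1)).Infinite := by
  by_contra hfin
  rw [Set.not_infinite] at hfin
  apply h
  have hfin2 : (⋃ b ∈ S ξ 1 (n * l + n - 1),
      {q : ℕ | |(b : ℝ) * ξ - (round ((b : ℝ) * ξ) : ℤ)| * q ≤ b}).Finite :=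
    hfin.biUnion fun b hb => oc_fin hξ hb.1
  refine hfin2.subset fun q hq => ?_
  have hq1 : 1 ≤ q := hq.1.1
  have hqr : (1 : ℝ) ≤ q := by exact_mod_cast hq1
  have hq0 : (0 : ℝ) < q := by linarith
  obtain ⟨b, hb, hbn, z, hz⟩ := oc_key hn hl hq
  have hb1 : (1 : ℝ) ≤ b := by exact_mod_cast hb
  have hb0 : (0 : ℝ) < b := by linarith
  have hround : |(b : ℝ) * ξ - (round ((b : ℝ) * ξ) : ℤ)| ≤ |(b : ℝ) * ξ - z| := round_le _ z
  have h1 : |(b : ℝ) * ξ - (round ((b : ℝ) * ξ) : ℤ)| * q ≤ b * (q : ℝ) ^ (-l) :=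
    (mul_le_mul_of_nonneg_right hround hq0.le).trans hz
  rw [Set.mem_iUnion₂]
  refine ⟨b, ⟨hb, fun j hj => ?_⟩, ?_⟩
  · rw [Finset.mem_Icc] at hj
    have hj1 : j = 1 := by omega
    subst hj1
    rw [pow_one]
    have h2 : |(b : ℝ) * ξ - (round ((b : ℝ) * ξ) : ℤ)| ≤ b * (q : ℝ) ^ (-(l + 1)) := by
      have e1 : (q : ℝ) ^ (-l) = (q : ℝ) ^ (-(l + 1)) * q := by
        have : -l = -(l + 1) + 1 := by ring
        rw [this, Real.rpow_add hq0, Real.rpow_one]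
      rw [e1, ← mul_assoc] at h1
      exact le_of_mul_le_mul_right h1 hq0
    refine h2.trans ?_
    have hbq : (b : ℝ) ^ n ≤ q := by exact_mod_cast hbn
    have h3 : (q : ℝ) ^ (-(l + 1)) ≤ ((b : ℝ) ^ n) ^ (-(l + 1)) :=
      Real.rpow_le_rpow_of_nonpos (pow_pos hb0 n) hbq (by linarith)
    refine (mul_le_mul_of_nonneg_left h3 hb0.le).trans (le_of_eq ?_)
    rw [← Real.rpow_natCast, ← Real.rpow_mul hb0.le]
    nth_rewrite 1 [← Real.rpow_one (b : ℝ)]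
    rw [← Real.rpow_add hb0]
    congr 1
    ring
  · rw [Set.mem_ofPred_eq]
    refine h1.trans ?_
    have h4 : (q : ℝ) ^ (-l) ≤ 1 := Real.rpow_le_one_of_one_le_of_nonpos hqr (by linarith)
    nlinarith

end MP637
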