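import Pool.Agent.Work.MP_637dc3_nt.D.Defs

/-! MP_637dc3_nt, dichotomy theorem, module D/TwoLe, size S.

PROOF. If `l > 1` then for `q ∈ STwo ξ n l K`, `r ≥ 2`: `q (q^(-l))^(r-1) = q^(1 - (r-1) l) ≤ q^(1 - l)` (`q ≥ 1`), so `|P.coeff j|^(n+2-2r) ≤ K q^(1-l) < 1` for large `q`, the integers `P.coeff j` vanish
(the exponent is `≥ 1`), `P = 0`, against `Ann`. So `STwo` is bounded, hence finite. -/

set_option autoImplicit false

open Polynomial Pool.Agent.Work.MP_637dc3_nt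

namespace MP637

theorem two_le_one {ξ : ℝ} {n : ℕ} {l K : ℝ} (hK : 0 < K) (h : (STwo ξ n l K).Infinite) :
    l ≤ 1 := by
  by_contra hl
  rw [not_le] at hl
  have h1 : Filter.Tendsto (fun q : ℕ => K * ((q : ℝ) ^ (-(l - 1)))) Filter.atTop (nhds (K * 0)) :=
    ((tendsto_rpow_neg_atTop (by linarith : 0 < l - 1)).comp tendsto_natCast_atTop_atTop).const_mul K
  rw [mul_zero] at h1
  have h2 := h1.eventually (gt_mem_nhds (show (0 : ℝ) < 1 by norm_num))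
  obtain ⟨N, hN⟩ := Filter.eventually_atTop.1 h2
  refine h ((Set.finite_lt_nat N).subset ?_)
  rintro q ⟨hq, r, P, hr, hrn, hA, hP⟩
  rw [Set.mem_ofPred_eq]
  by_contra hqN
  rw [not_lt] at hqN
  have hq1 : (1 : ℝ) ≤ q := by exact_mod_cast hq.1
  have hq0 : (0 : ℝ) < q := by linarith
  have h3 := hN q hqN
  have h4 : (q : ℝ) * ((q : ℝ) ^ (-l)) ^ (r - 1) ≤ (q : ℝ) ^ (-(l - 1)) := by
    have h5 : (q : ℝ) ^ (-(l - 1)) = (q : ℝ) * (q : ℝ) ^ (-l) := by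
      rw [show -(l - 1) = 1 + -l by ring, Real.rpow_add hq0, Real.rpow_one]
    rw [h5]
    refine mul_le_mul_of_nonneg_left ?_ hq0.le
    have h6 : (q : ℝ) ^ (-l) ≤ 1 := Real.rpow_le_one_of_one_le_of_nonpos hq1 (by linarith)
    exact pow_le_of_le_one (Real.rpow_pos_of_pos hq0 _).le h6 (by omega)
  apply hA.1
  ext j
  rw [Polynomial.coeff_zero]
  by_contra hj
  have h7 : (1 : ℝ) ≤ |(P.coeff j : ℝ)| := by
    rw [← Int.cast_abs]
    exact_mod_cast Int.one_le_abs hj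
  have h8 : (1 : ℝ) ≤ |(P.coeff j : ℝ)| ^ (n + 2 - 2 * r) := one_le_pow₀ h7
  have h9 := hP j
  have h10 := mul_le_mul_of_nonneg_left h4 hK.le
  linarith

end MP637
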