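import Pool.Agent.Work.MP_637dc3_nt.D.Height
import Pool.Agent.Work.MP_637dc3_nt.D.One
import Pool.Agent.Work.MP_637dc3_nt.D.Fin
import Pool.Agent.Work.MP_637dc3_nt.D.TwoLe
import Pool.Agent.Work.MP_637dc3_nt.D.Core

/-! MP_637dc3_nt, dichotomy theorem: the dichotomy for real exponents. -/

set_option autoImplicit false

open Polynomial Pool.Agent.Work.MP_637dc3_nt

namespace MP637

theorem S_infinite_of_nonpos (ξ : ℝ) (m : ℕ) {μ : ℝ} (hμ : μ ≤ 0) : (S ξ m μ).Infinite := by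
  apply Set.infinite_of_forall_exists_gt
  intro N
  refine ⟨N + 1, ⟨Nat.succ_pos N, ?_⟩, Nat.lt_succ_self N⟩
  intro j _
  calc _ ≤ (1 / 2 : ℝ) := abs_sub_round _
    _ ≤ 1 := by norm_num
    _ ≤ _ := Real.one_le_rpow (by push_cast; linarith [(Nat.cast_nonneg N : (0 : ℝ) ≤ N)])
        (by linarith)

theorem S_mono {ξ : ℝ} {n : ℕ} {l l' : ℝ} (h : l' ≤ l) : S ξ n l ⊆ S ξ n l' := by
  rintro q ⟨hq, hj⟩
  refine ⟨hq, fun j hjj => (hj j hjj).trans ?_⟩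
  exact Real.rpow_le_rpow_of_exponent_le (by exact_mod_cast hq) (by linarith)

theorem dich_one (ξ : ℝ) (n : ℕ) (hn : 1 ≤ n) : ∃ K : ℝ, 0 < K ∧ ∀ l : ℝ, 2 / (n : ℝ) < l →
    ∃ q0 : ℕ, ∀ q ∈ S ξ n l, q0 ≤ q → q ∈ SOne ξ n l ∨ q ∈ STwo ξ n l K := by
  obtain ⟨K, hK, hh⟩ := height ξ n hn
  refine ⟨K, hK, fun l hl => ?_⟩
  have hn0 : (0 : ℝ) < n := by exact_mod_cast hn
  have hl0 : 0 < l := lt_trans (by positivity) hl
  -- `q` large
  have hq0 : ∃ q0 : ℕ, ∀ q : ℕ, q0 ≤ q → 1 ≤ q → n % 2 = 0 →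
      K * ((q : ℝ) * ((q : ℝ) ^ (-l)) ^ (n / 2)) < 1 := by
    by_cases hpar : n % 2 = 0
    · have hexp : 0 < l * ((n / 2 : ℕ) : ℝ) - 1 := by
        have h1 : ((n / 2 : ℕ) : ℝ) = (n : ℝ) / 2 := by
          have h2 : n = 2 * (n / 2) := by omega
          have h3 : (n : ℝ) = 2 * ((n / 2 : ℕ) : ℝ) := by exact_mod_cast h2
          linarith
        rw [h1]
        rw [div_lt_iff₀ hn0] at hl
        linarith
      have hlim : ∀ᶠ x : ℝ in Filter.atTop, K + 1 ≤ x ^ (l * ((n / 2 : ℕ) : ℝ) - 1) :=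
        (tendsto_rpow_atTop hexp).eventually_ge_atTop _
      obtain ⟨x0, hx0⟩ := Filter.eventually_atTop.1 hlim
      obtain ⟨q0, hq0⟩ := exists_nat_ge x0
      refine ⟨q0, fun q hq hq1 _ => ?_⟩
      have hqpos : (0 : ℝ) < q := by exact_mod_cast hq1
      have h1 := hx0 (q : ℝ) (hq0.trans (by exact_mod_cast hq))
      have h2 : (q : ℝ) * ((q : ℝ) ^ (-l)) ^ (n / 2)
          = ((q : ℝ) ^ (l * ((n / 2 : ℕ) : ℝ) - 1))⁻¹ := by
        rw [← Real.rpow_natCast ((q : ℝ) ^ (-l)), ← Real.rpow_mul hqpos.le,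
          ← Real.rpow_neg hqpos.le]
        nth_rewrite 1 [← Real.rpow_one (q : ℝ)]
        rw [← Real.rpow_add hqpos]
        congr 1
        ring
      rw [h2, ← div_eq_mul_inv, div_lt_one (by linarith)]
      linarith
    · exact ⟨0, fun q _ _ h => absurd h hpar⟩
  obtain ⟨q0, hq0⟩ := hq0
  refine ⟨q0, fun q hqS hq => ?_⟩
  have g := gp_of_mem hl0.le hqS
  obtain ⟨r, P, hr1, hr2, hprim, hP, hcoef⟩ := hh q _ _ g (hq0 q hq g.qpos)
  rcases Nat.lt_or_ge 1 r with h | h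
  · exact Or.inr ⟨hqS, r, P, h, hr2, hP, hcoef⟩
  · have h1 : r = 1 := by omega
    subst h1
    exact Or.inl ⟨hqS, P, hprim, hP⟩

/-- the case of degree at least two -/
theorem two_case {ξ : ℝ} (hξ : Irrational ξ) {n m : ℕ} (hnm : n < m) {l K μ : ℝ}
    (hl : 2 / (n : ℝ) < l) (hK : 0 < K) (hinf : (STwo ξ n l K).Infinite)
    (hμ : μ < (((m : ℝ) + n - 3) * l - (m - n + 1)) / (((m : ℝ) + n - 3) - (m - n + 1) * l)) :
    3 ≤ n ∧ l ≤ 1 ∧ (S ξ m μ).Infinite := by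
  have hn : 3 ≤ n := by
    obtain ⟨q, -, r, P, h1, h2, -⟩ := hinf.nonempty
    omega
  have hl1 : l ≤ 1 := two_le_one hK hinf
  refine ⟨hn, hl1, ?_⟩
  rcases le_or_gt μ 0 with h | hμ0
  · exact S_infinite_of_nonpos ξ m h
  have hn3 : (3 : ℝ) ≤ n := by exact_mod_cast hn
  have hmn : (n : ℝ) + 1 ≤ m := by exact_mod_cast hnm
  set κ : ℝ := (1 - l) * ((m : ℝ) - n + 1) / (2 * ((n : ℝ) - 2)) with hκ
  have hκ0 : 0 ≤ κ := by
    apply div_nonneg
    · exact mul_nonneg (by linarith) (by linarith)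
    · linarith
  have hden : 0 < ((m : ℝ) + n - 3) - (m - n + 1) * l := by
    nlinarith
  have hform : (((m : ℝ) + n - 3) * l - (m - n + 1)) / (((m : ℝ) + n - 3) - (m - n + 1) * l)
      = (l - κ) / (1 + κ) := by
    have h2 : (2 * ((n : ℝ) - 2)) ≠ 0 := by
      apply ne_of_gt
      linarith
    rw [div_eq_div_iff hden.ne' (by linarith)]
    have h3 : κ * (2 * ((n : ℝ) - 2)) = (1 - l) * ((m : ℝ) - n + 1) := by
      rw [hκ, div_mul_cancel₀ _ h2]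
    have h4 : (2 * ((n : ℝ) - 2)) * ((((m : ℝ) + n - 3) * l - (m - n + 1)) * (1 + κ)) =
        (2 * ((n : ℝ) - 2)) * ((l - κ) * (((m : ℝ) + n - 3) - (m - n + 1) * l)) := by
      have h5 : (2 * ((n : ℝ) - 2)) * ((((m : ℝ) + n - 3) * l - (m - n + 1)) * (1 + κ)) =
          (((m : ℝ) + n - 3) * l - (m - n + 1)) * (2 * ((n : ℝ) - 2) + κ * (2 * ((n : ℝ) - 2))) := by
        ring
      have h6 : (2 * ((n : ℝ) - 2)) * ((l - κ) * (((m : ℝ) + n - 3) - (m - n + 1) * l)) =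
          (l * (2 * ((n : ℝ) - 2)) - κ * (2 * ((n : ℝ) - 2))) *
            (((m : ℝ) + n - 3) - (m - n + 1) * l) := by ring
      rw [h5, h6, h3]
      ring
    exact mul_left_cancel₀ h2 h4
  rw [hform] at hμ
  have h1κ : 0 < 1 + κ := by linarith
  have hμ' : μ * (1 + κ) < l - κ := by rwa [lt_div_iff₀ h1κ] at hμ
  have hκl : κ < l := by
    have : 0 < μ * (1 + κ) := mul_pos hμ0 h1κ
    linarith
  obtain ⟨K', q0, hK', hcore⟩ := core hξ hn hnm hl.le hl1 hK hκl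
  refine infinite_of hξ (by omega) hμ0.le h1κ hμ' hK' (fun q1 => ?_)
  obtain ⟨q, hqS, hq⟩ := hinf.exists_gt (max q1 q0)
  have hq1 : 1 ≤ q := hqS.1.1
  obtain ⟨z, hz0, hz1, hz2⟩ := hcore q hqS ((le_max_right _ _).trans hq.le)
  exact ⟨q, (le_max_left _ _).trans hq.le, hq1, z, hz0, hz1, hz2⟩

end MP637
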