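import Mathlib
import Pool.Agent.Work.MP_637dc3_nt.Step

set_option autoImplicit false

/-!
# MP_637dc3_nt, dichotomy theorem: definitions (fixed, do not change)

`x j` is the nearest integer to `q * ξ ^ j`; `LL x` is the linear functional on `ℤ[X]` with `LL x (X ^ j) = x j`.
-/

open Polynomial Pool.Agent.Work.MP_637dc3_nt

namespace MP637

/-- the linear functional with `LL x (X ^ j) = x j` -/
noncomputable def LL (x : ℕ → ℤ) : ℤ[X] →ₗ[ℤ] ℤ :=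
  Polynomial.lsum fun j => LinearMap.mulRight ℤ (x j)

/-- `P` is a nonzero polynomial of degree at most `r` that annihilates `x 0, ..., x n` -/
def Ann (x : ℕ → ℤ) (n r : ℕ) (P : ℤ[X]) : Prop :=
  P ≠ 0 ∧ P.natDegree ≤ r ∧ ∀ h : ℤ[X], h.natDegree + r ≤ n → LL x (h * P) = 0

/-- the Hankel matrix of `x` with weight `w` -/
noncomputable def Hk (x : ℕ → ℤ) (r : ℕ) (w : ℤ[X]) : Matrix (Fin r) (Fin r) ℤ :=
  Matrix.of fun i j => LL x (w * X ^ ((i : ℕ) + j))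

/-- `x 0, ..., x n` is a good approximation of `q, q ξ, ..., q ξ ^ n` -/
structure Gp (ξ : ℝ) (n q : ℕ) (ε : ℝ) (x : ℕ → ℤ) : Prop where
  qpos : 1 ≤ q
  x0 : x 0 = q
  e0 : 0 ≤ ε
  e1 : ε ≤ 1
  err : ∀ j ≤ n, |(q : ℝ) * ξ ^ j - (x j : ℝ)| ≤ ε

/-- the nearest integers to `q ξ ^ j` -/
noncomputable def xx (ξ : ℝ) (q : ℕ) (j : ℕ) : ℤ := round ((q : ℝ) * ξ ^ j)

/-- points `q` of `S ξ n l` whose approximation is annihilated by a linear primitive polynomial -/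
def SOne (ξ : ℝ) (n : ℕ) (l : ℝ) : Set ℕ :=
  {q | q ∈ S ξ n l ∧ ∃ P : ℤ[X], P.IsPrimitive ∧ Ann (xx ξ q) n 1 P}

/-- points `q` of `S ξ n l` whose approximation is annihilated by a polynomial of degree at most
`r`, `2 ≤ r ≤ (n + 1) / 2`, of small height -/
def STwo (ξ : ℝ) (n : ℕ) (l K : ℝ) : Set ℕ :=
  {q | q ∈ S ξ n l ∧ ∃ (r : ℕ) (P : ℤ[X]), 2 ≤ r ∧ 2 * r ≤ n + 1 ∧ Ann (xx ξ q) n r P ∧
    ∀ j, |(P.coeff j : ℝ)| ^ (n + 2 - 2 * r) ≤ K * ((q : ℝ) * ((q : ℝ) ^ (-l)) ^ (r - 1))}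

theorem gp_of_mem {ξ : ℝ} {n : ℕ} {l : ℝ} (hl : 0 ≤ l) {q : ℕ} (hq : q ∈ S ξ n l) :
    Gp ξ n q ((q : ℝ) ^ (-l)) (xx ξ q) := by
  obtain ⟨hq0, hq1⟩ := hq
  have h1 : (1 : ℝ) ≤ q := by exact_mod_cast hq0
  refine ⟨hq0, ?_, (Real.rpow_pos_of_pos (by linarith) _).le,
    Real.rpow_le_one_of_one_le_of_nonpos h1 (by linarith), fun j hj => ?_⟩
  · simp [xx]
  · rcases Nat.eq_zero_or_pos j with h | h
    · subst h
      simp only [pow_zero, mul_one, xx, round_natCast]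
      simp only [Int.cast_natCast, sub_self, abs_zero]
      exact (Real.rpow_pos_of_pos (by linarith) _).le
    · exact hq1 j (Finset.mem_Icc.2 ⟨h, hj⟩)

theorem LL_monomial (x : ℕ → ℤ) (j : ℕ) (a : ℤ) : LL x (monomial j a) = a * x j := by
  simp [LL]

theorem LL_X_pow (x : ℕ → ℤ) (j : ℕ) : LL x (X ^ j) = x j := by
  rw [X_pow_eq_monomial, LL_monomial, one_mul]

theorem LL_one (x : ℕ → ℤ) : LL x 1 = x 0 := by
  simpa using LL_X_pow x 0

theorem LL_C (x : ℕ → ℤ) (a : ℤ) : LL x (C a) = a * x 0 := by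
  simpa using LL_monomial x 0 a

theorem LL_C_mul (x : ℕ → ℤ) (a : ℤ) (p : ℤ[X]) : LL x (C a * p) = a * LL x p := by
  rw [← smul_eq_C_mul, map_smul, smul_eq_mul]

theorem LL_sum (x : ℕ → ℤ) (p : ℤ[X]) : LL x p = p.sum fun j a => a * x j := by
  rw [LL, Polynomial.lsum_apply]
  simp [LinearMap.mulRight_apply]

theorem LL_range (x : ℕ → ℤ) (p : ℤ[X]) (n : ℕ) (h : p.natDegree ≤ n) :
    LL x p = ∑ j ∈ Finset.range (n + 1), p.coeff j * x j := by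
  rw [LL_sum, Polynomial.sum_over_range' p _ (n + 1) (Nat.lt_succ_of_le h)]
  intro j
  simp

/-- the error of the functional -/
theorem LL_err {ξ : ℝ} {n q : ℕ} {ε : ℝ} {x : ℕ → ℤ} (g : Gp ξ n q ε x) (p : ℤ[X])
    (h : p.natDegree ≤ n) :
    |(q : ℝ) * aeval ξ p - (LL x p : ℝ)| ≤ (∑ j ∈ Finset.range (n + 1), |(p.coeff j : ℝ)|) * ε := by
  rw [LL_range x p n h, Polynomial.aeval_eq_sum_range' (Nat.lt_succ_of_le h)]
  push_cast
  rw [Finset.mul_sum, ← Finset.sum_sub_distrib, Finset.sum_mul]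
  refine (Finset.abs_sum_le_sum_abs _ _).trans (Finset.sum_le_sum fun j hj => ?_)
  have h1 := g.err j (Nat.lt_succ_iff.mp (Finset.mem_range.1 hj))
  have h2 : (q : ℝ) * (p.coeff j • ξ ^ j) - (p.coeff j : ℝ) * (x j : ℝ)
      = (p.coeff j : ℝ) * ((q : ℝ) * ξ ^ j - x j) := by
    rw [zsmul_eq_mul]
    ring
  rw [h2, abs_mul]
  exact mul_le_mul_of_nonneg_left h1 (abs_nonneg _)

end MP637
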