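import Pool.Agent.Work.MP_637dc3_nt.D.Defs

/-! MP_637dc3_nt, dichotomy theorem, module D/DetStep, size M.

Moving one linear factor of the weight.

PROOF. Let `A s` be the `(r+1) x (r+1)` integer matrix with row `0` equal to `(s^j)_j` and row `i + 1` equal to `(LL x (w * X^(i+j)))_j`, `j = 0..r`. Column operations
`column (j+1) - s * column j` (`Matrix.det_eq_of_forall_col_eq_smul_add_pred`) turn row `0` into `(1, 0, .., 0)` and row `i + 1`, column `j + 1` into
`LL x (w * X^(i+j+1)) - s * LL x (w * X^(i+j)) = LL x (w * (X - C s) * X^(i+j))`; expansion along row `0` (`Matrix.det_succ_row_zero`, or `Fin.sum_univ_succ`) gives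
`det (A s) = (Hk x r (w * (X - C s))).det`. With `p j = P.coeff j`: `(A s).mulVec p = (P.eval s) * (unit vector 0)`: row `i + 1` gives `LL x (w * X^i * P) = 0` by `hP`, since
`w.natDegree + i + r ≤ n` for `i ≤ r - 1`. Multiply by the adjugate (`Matrix.adjugate_mul`): `det (A s) * p j = P.eval s * adjugate (A s) j 0`. The entry
`adjugate (A s) j 0` does not depend on `s` (`Matrix.adjugate_apply`: it is the determinant of `A s` with row `0` replaced). So
`det (A s) * p j * P.eval s0 = P.eval s * P.eval s0 * c = det (A s0) * p j * P.eval s` for all `j`; choose `j ≤ r` with `p j ≠ 0` (`P ≠ 0`). -/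

set_option autoImplicit false

open Polynomial

namespace MP637

private noncomputable def AA (x : ℕ → ℤ) (r : ℕ) (w : ℤ[X]) (s : ℤ) :
    Matrix (Fin (r + 1)) (Fin (r + 1)) ℤ :=
  Matrix.of (Fin.cons (fun j : Fin (r + 1) => s ^ (j : ℕ))
    (fun (i : Fin r) (j : Fin (r + 1)) => LL x (w * X ^ ((i : ℕ) + (j : ℕ)))))

private theorem AA_zero (x : ℕ → ℤ) (r : ℕ) (w : ℤ[X]) (s : ℤ) (j : Fin (r + 1)) :
    AA x r w s 0 j = s ^ (j : ℕ) := rfl

private theorem AA_succ (x : ℕ → ℤ) (r : ℕ) (w : ℤ[X]) (s : ℤ) (i : Fin r) (j : Fin (r + 1)) :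
    AA x r w s i.succ j = LL x (w * X ^ ((i : ℕ) + (j : ℕ))) := rfl

private theorem det_AA (x : ℕ → ℤ) (r : ℕ) (w : ℤ[X]) (s : ℤ) :
    (AA x r w s).det = (Hk x r (w * (X - C s))).det := by
  set B : Matrix (Fin (r + 1)) (Fin (r + 1)) ℤ :=
    Matrix.of (Fin.cons (fun j : Fin (r + 1) => if j = 0 then 1 else 0)
      (fun (i : Fin r) (j : Fin (r + 1)) => Fin.cases (motive := fun _ => ℤ)
        (LL x (w * X ^ (i : ℕ)))
        (fun j' : Fin r => LL x (w * (X - C s) * X ^ ((i : ℕ) + (j' : ℕ)))) j)) with hB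
  have h1 : (AA x r w s).det = B.det := by
    refine Matrix.det_eq_of_forall_col_eq_smul_add_pred (fun _ => s) (fun i => ?_) (fun i j => ?_)
    · refine Fin.cases ?_ (fun i => ?_) i
      · rw [AA_zero, hB]
        simp
      · rw [AA_succ, hB]
        simp
    · refine Fin.cases ?_ (fun i => ?_) i
      · rw [AA_zero, AA_zero, hB]
        simp [pow_succ, mul_comm]
      · rw [AA_succ, AA_succ, hB]
        simp only [Matrix.of_apply, Fin.cons_succ, Fin.cases_succ, Fin.val_succ, Fin.val_castSucc]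
        rw [← LL_C_mul, ← map_add]
        congr 1
        ring
  rw [h1, Matrix.det_succ_row_zero, Finset.sum_eq_single 0]
  · have : B 0 0 = 1 := by rw [hB]; simp
    rw [this]
    simp only [Fin.val_zero, pow_zero, one_mul]
    congr 1
  · intro j _ hj
    have : B 0 j = 0 := by rw [hB]; simp [hj]
    rw [this]
    simp
  · intro h
    exact absurd (Finset.mem_univ _) h

private theorem mulVec_AA {x : ℕ → ℤ} {n r : ℕ} {P : ℤ[X]} (hr : 1 ≤ r) (hP : Ann x n r P)
    (w : ℤ[X]) (hw : w.natDegree + 2 * r ≤ n + 1) (s : ℤ) :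
    (AA x r w s).mulVec (fun j => P.coeff j) = Pi.single 0 (P.eval s) := by
  have hPs : ∑ j : Fin (r + 1), C (P.coeff j) * X ^ (j : ℕ) = P := by
    rw [Fin.sum_univ_eq_sum_range (fun j => C (P.coeff j) * X ^ j) (r + 1)]
    exact (P.as_sum_range_C_mul_X_pow' (Nat.lt_succ_of_le hP.2.1)).symm
  ext i
  refine Fin.cases ?_ (fun i => ?_) i
  · rw [Pi.single_eq_same, Matrix.mulVec, dotProduct]
    simp only [AA_zero]
    conv_rhs => rw [← hPs]
    rw [eval_finsetSum]
    refine Finset.sum_congr rfl fun j _ => ?_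
    simp [mul_comm]
  · rw [Pi.single_eq_of_ne (Fin.succ_ne_zero i), Matrix.mulVec, dotProduct]
    simp only [AA_succ]
    have h1 : ∑ j : Fin (r + 1), LL x (w * X ^ ((i : ℕ) + (j : ℕ))) * P.coeff j
        = LL x (w * X ^ (i : ℕ) * P) := by
      conv_rhs => rw [← hPs, Finset.mul_sum, map_sum]
      refine Finset.sum_congr rfl fun j _ => ?_
      rw [mul_comm, ← LL_C_mul]
      congr 1
      ring
    rw [h1]
    apply hP.2.2
    have h2 : (w * X ^ (i : ℕ)).natDegree ≤ w.natDegree + i :=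
      natDegree_mul_le.trans (by rw [natDegree_X_pow])
    have := i.2
    omega

theorem det_step {x : ℕ → ℤ} {n r : ℕ} {P : ℤ[X]} (hr : 1 ≤ r) (hP : Ann x n r P) (w : ℤ[X])
    (hw : w.natDegree + 2 * r ≤ n + 1) (s s0 : ℤ) :
    (Hk x r (w * (X - C s))).det * P.eval s0 = (Hk x r (w * (X - C s0))).det * P.eval s := by
  rw [← det_AA, ← det_AA]
  have key : ∀ (s : ℤ) (j : Fin (r + 1)),
      (AA x r w s).det * P.coeff j = (AA x r w s).adjugate j 0 * P.eval s := by
    intro s j
    have h1 : ((AA x r w s).adjugate * AA x r w s).mulVec (fun j : Fin (r + 1) => P.coeff j) j =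
        (AA x r w s).det * P.coeff j := by
      rw [Matrix.adjugate_mul, Matrix.smul_mulVec, Matrix.one_mulVec]
      rfl
    rw [← h1, ← Matrix.mulVec_mulVec, mulVec_AA hr hP w hw, Matrix.mulVec_single]
    simp [mul_comm]
  have hadj : ∀ j : Fin (r + 1), (AA x r w s).adjugate j 0 = (AA x r w s0).adjugate j 0 := by
    intro j
    rw [Matrix.adjugate_apply, Matrix.adjugate_apply]
    congr 1
    ext i k
    refine Fin.cases ?_ (fun i => ?_) i
    · rw [Matrix.updateRow_self, Matrix.updateRow_self]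
    · rw [Matrix.updateRow_ne (Fin.succ_ne_zero i), Matrix.updateRow_ne (Fin.succ_ne_zero i),
        AA_succ, AA_succ]
  set j : Fin (r + 1) := ⟨P.natDegree, Nat.lt_succ_of_le hP.2.1⟩ with hj
  have hpj : P.coeff (j : ℕ) ≠ 0 := by
    rw [hj]
    exact leadingCoeff_ne_zero.2 hP.1
  have k1 := key s j
  have k2 := key s0 j
  rw [hadj j] at k1
  apply mul_right_cancel₀ hpj
  calc (AA x r w s).det * P.eval s0 * P.coeff j = ((AA x r w s).det * P.coeff j) * P.eval s0 := by ring
    _ = ((AA x r w s0).det * P.coeff j) * P.eval s := by rw [k1, k2]; ring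
    _ = _ := by ring

end MP637
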