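import Pool.Agent.Work.MP_637dc3_nt.D.Defs
import Pool.Agent.Work.MP_637dc3_nt.D.DetStep

/-! MP_637dc3_nt, dichotomy theorem, module D/DetIter, size S-M.

PROOF. `N = n + 2 - 2 r`. By induction on `a ≤ N`: `det Hk ((X - C s)^a * (X - C s0)^(N - a)) * (P.eval s0)^a = det Hk ((X - C s0)^N) * (P.eval s)^a`. Step `a → a + 1`:
`det_step` with `w = (X - C s)^a * (X - C s0)^(N - 1 - a)` (degree `N - 1`, and `N - 1 + 2 r = n + 1`). Take `a = N`. -/

set_option autoImplicit false

open Polynomial

namespace MP637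

theorem det_iter {x : ℕ → ℤ} {n r : ℕ} {P : ℤ[X]} (hr : 1 ≤ r) (h2 : 2 * r ≤ n + 1)
    (hP : Ann x n r P) (s s0 : ℤ) :
    (Hk x r ((X - C s) ^ (n + 2 - 2 * r))).det * P.eval s0 ^ (n + 2 - 2 * r) =
      (Hk x r ((X - C s0) ^ (n + 2 - 2 * r))).det * P.eval s ^ (n + 2 - 2 * r) := by
  obtain ⟨N, hN⟩ : ∃ N, N = n + 2 - 2 * r := ⟨_, rfl⟩
  have key : ∀ a b : ℕ, a + b = N →
      (Hk x r ((X - C s) ^ a * (X - C s0) ^ b)).det * P.eval s0 ^ a =
        (Hk x r ((X - C s0) ^ N)).det * P.eval s ^ a := by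
    intro a
    induction a with
    | zero =>
      intro b hb
      have hb' : b = N := by omega
      rw [hb', pow_zero, pow_zero, pow_zero, one_mul]
    | succ a ih =>
      intro b hb
      have h1 := ih (b + 1) (by omega)
      have h3 := det_step hr hP ((X - C s) ^ a * (X - C s0) ^ b) (by
        have e1 : ((X - C s) ^ a * (X - C s0) ^ b : ℤ[X]).natDegree ≤ a + b := by
          refine natDegree_mul_le.trans (Nat.add_le_add ?_ ?_)
          · refine natDegree_pow_le.trans ?_
            rw [natDegree_X_sub_C, mul_one]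
          · refine natDegree_pow_le.trans ?_
            rw [natDegree_X_sub_C, mul_one]
        omega) s s0
      have e1 : ((X - C s) ^ (a + 1) * (X - C s0) ^ b : ℤ[X]) =
          (X - C s) ^ a * (X - C s0) ^ b * (X - C s) := by ring
      have e2 : ((X - C s) ^ a * (X - C s0) ^ (b + 1) : ℤ[X]) =
          (X - C s) ^ a * (X - C s0) ^ b * (X - C s0) := by ring
      rw [e2] at h1
      rw [e1]
      calc _ = (Hk x r ((X - C s) ^ a * (X - C s0) ^ b * (X - C s))).det * P.eval s0 *
            P.eval s0 ^ a := by ring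
        _ = (Hk x r ((X - C s) ^ a * (X - C s0) ^ b * (X - C s0))).det * P.eval s0 ^ a *
            P.eval s := by rw [h3]; ring
        _ = _ := by rw [h1]; ring
  have h4 := key N 0 (add_zero N)
  rw [pow_zero, mul_one] at h4
  rw [← hN]
  exact h4

end MP637
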