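import Pool.Agent.Work.MP_637dc3_nt.D.Defs

/-! MP_637dc3_nt, dichotomy theorem, module D/DetSmall, size S-M.

A determinant whose rows are nearly in geometric progression is small.

PROOF. Let `B 0 = M 0` and `B i.succ = M i.succ - ξ M i.castSucc`. `det M = det B` (`Matrix.det_eq_of_forall_row_eq_smul_add_pred`).
Leibniz formula (`Matrix.det_apply`): `|det B| ≤ ∑ σ, ∏ i, |B (σ i) i|` or with transposed indices; each product has one factor `≤ A` (row `0`)
and `r` factors `≤ δ`; there are `(r+1)!` permutations (`Fin.prod_univ_succ` after `Matrix.det_transpose` if convenient, `Fintype.card_perm`). -/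

set_option autoImplicit false

open Polynomial

namespace MP637

theorem det_small (r : ℕ) (M : Matrix (Fin (r + 1)) (Fin (r + 1)) ℝ) (ξ A δ : ℝ) (hA : 0 ≤ A)
    (hδ : 0 ≤ δ) (h0 : ∀ j, |M 0 j| ≤ A)
    (h1 : ∀ (i : Fin r) (j : Fin (r + 1)), |M i.succ j - ξ * M i.castSucc j| ≤ δ) :
    |M.det| ≤ ((r + 1).factorial : ℝ) * (A * δ ^ r) := by
  obtain ⟨B, hB0, hB1⟩ : ∃ B : Matrix (Fin (r + 1)) (Fin (r + 1)) ℝ, (∀ j, B 0 j = M 0 j) ∧
      ∀ (i : Fin r) (j : Fin (r + 1)), B i.succ j = M i.succ j - ξ * M i.castSucc j :=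
    ⟨Matrix.of (Fin.cases (fun j => M 0 j) (fun i j => M i.succ j - ξ * M i.castSucc j)),
      fun _ => rfl, fun _ _ => rfl⟩
  have hdet : M.det = B.det :=
    Matrix.det_eq_of_forall_row_eq_smul_add_pred (fun _ => ξ) (fun j => (hB0 j).symm)
      (fun i j => by rw [hB1]; ring)
  rw [hdet, ← Matrix.det_transpose, Matrix.det_apply]
  refine (Finset.abs_sum_le_sum_abs _ _).trans ?_
  have h2 : ∀ σ : Equiv.Perm (Fin (r + 1)),
      |Equiv.Perm.sign σ • ∏ i, B.transpose (σ i) i| ≤ A * δ ^ r := by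
    intro σ
    have h3 : |Equiv.Perm.sign σ • ∏ i, B.transpose (σ i) i| = ∏ i, |B i (σ i)| := by
      rw [Units.smul_def, zsmul_eq_mul, abs_mul, Finset.abs_prod]
      have h4 : |((Equiv.Perm.sign σ : ℤ) : ℝ)| = 1 := by
        rcases Int.units_eq_one_or (Equiv.Perm.sign σ) with h | h <;> rw [h] <;> simp
      rw [h4, one_mul]
      rfl
    rw [h3, Fin.prod_univ_succ]
    refine mul_le_mul ?_ ?_ (Finset.prod_nonneg fun _ _ => abs_nonneg _) hA
    · rw [hB0]
      exact h0 _
    · calc ∏ i : Fin r, |B i.succ (σ i.succ)| ≤ ∏ _i : Fin r, δ := by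
            refine Finset.prod_le_prod (fun _ _ => abs_nonneg _) fun i _ => ?_
            rw [hB1]
            exact h1 i _
        _ = δ ^ r := by rw [Finset.prod_const, Finset.card_univ, Fintype.card_fin]
  calc ∑ σ : Equiv.Perm (Fin (r + 1)), |Equiv.Perm.sign σ • ∏ i, B.transpose (σ i) i|
      ≤ ∑ _σ : Equiv.Perm (Fin (r + 1)), A * δ ^ r := Finset.sum_le_sum fun σ _ => h2 σ
    _ = ((r + 1).factorial : ℝ) * (A * δ ^ r) := by
      rw [Finset.sum_const, Finset.card_univ, Fintype.card_perm, Fintype.card_fin, nsmul_eq_mul]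

end MP637
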