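import Pool.Agent.Work.MP_637dc3_nt.D.Defs
import Pool.Agent.Work.MP_637dc3_nt.D.DetSmall

/-! MP_637dc3_nt, dichotomy theorem, module D/DetLe, size M.

Upper bound of the Hankel determinants.

PROOF. `N = n + 2 - 2 r`, `r = r' + 1`. The entry `(i, j)` is `y (i + j)` with `y a = LL x ((X - C s)^N * X^a)`, `a ≤ 2 (r - 1)`, and `N + a ≤ n`, so by `LL_err`
`|y a - q ξ^a (ξ - s)^N| ≤ G ε`, where `G` bounds the sum of the absolute values of the coefficients of `(X - C s)^N * X^a` for all `s ≤ r`, `a ≤ n` (take the sum of all these finite sums; no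
explicit value needed). So `|y (a + 1) - ξ y a| ≤ (1 + |ξ|) G ε` and `|y a| ≤ G' q` (`q ≥ 1`, `ε ≤ 1`, `G'` bounds `|ξ|^a |ξ - s|^N + G`). Apply `det_small` (with `r'`) to the matrix
cast to `ℝ` (`Int.cast_det` or `RingHom.map_det`): `|det| ≤ r! G' q ((1 + |ξ|) G ε)^(r-1)`. -/

set_option autoImplicit false

open Polynomial

namespace MP637

private theorem bnd (F : ℕ → ℕ → ℝ) (hF : ∀ s a, 0 ≤ F s a) (r n : ℕ) :
    ∃ G : ℝ, 0 < G ∧ ∀ s ≤ r, ∀ a ≤ n, F s a ≤ G := by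
  refine ⟨∑ s ∈ Finset.range (r + 1), ∑ a ∈ Finset.range (n + 1), F s a + 1, ?_, ?_⟩
  · have h1 : 0 ≤ ∑ s ∈ Finset.range (r + 1), ∑ a ∈ Finset.range (n + 1), F s a :=
      Finset.sum_nonneg fun s _ => Finset.sum_nonneg fun a _ => hF s a
    linarith
  · intro s hs a ha
    have h1 : F s a ≤ ∑ a ∈ Finset.range (n + 1), F s a :=
      Finset.single_le_sum (f := fun a => F s a) (fun a _ => hF s a)
        (Finset.mem_range.2 (Nat.lt_succ_of_le ha))
    have h2 : ∑ a ∈ Finset.range (n + 1), F s a ≤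
        ∑ s ∈ Finset.range (r + 1), ∑ a ∈ Finset.range (n + 1), F s a :=
      Finset.single_le_sum (f := fun s => ∑ a ∈ Finset.range (n + 1), F s a)
        (fun s _ => Finset.sum_nonneg fun a _ => hF s a)
        (Finset.mem_range.2 (Nat.lt_succ_of_le hs))
    linarith

theorem det_le (ξ : ℝ) (n r : ℕ) (hr : 1 ≤ r) (h2 : 2 * r ≤ n + 1) :
    ∃ K : ℝ, 0 < K ∧ ∀ (q : ℕ) (ε : ℝ) (x : ℕ → ℤ), Gp ξ n q ε x → ∀ s : ℕ, s ≤ r →
      |((Hk x r ((X - C (s : ℤ)) ^ (n + 2 - 2 * r))).det : ℝ)| ≤ K * ((q : ℝ) * ε ^ (r - 1)) := by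
  obtain ⟨N, hN⟩ : ∃ N, N = n + 2 - 2 * r := ⟨_, rfl⟩
  rw [← hN]
  obtain ⟨r', rfl⟩ : ∃ r', r = r' + 1 := ⟨r - 1, by omega⟩
  obtain ⟨G, hG, hGb⟩ := bnd (fun s a => ∑ j ∈ Finset.range (n + 1),
    |((((X - C (s : ℤ)) ^ N * X ^ a : ℤ[X]).coeff j : ℤ) : ℝ)|)
    (fun s a => Finset.sum_nonneg fun j _ => abs_nonneg _) (r' + 1) n
  obtain ⟨G1, hG1, hG1b⟩ := bnd (fun s a => |(ξ - s) ^ N * ξ ^ a|) (fun s a => abs_nonneg _)
    (r' + 1) n
  have hx : 0 < 1 + |ξ| := by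
    have := abs_nonneg ξ
    linarith
  refine ⟨((r' + 1).factorial : ℝ) * ((G1 + G) * ((1 + |ξ|) * G) ^ r'), ?_, ?_⟩
  · have h3 : (0 : ℝ) < ((r' + 1).factorial : ℝ) := by exact_mod_cast Nat.factorial_pos _
    positivity
  · intro q ε x g s hs
    have hq : (1 : ℝ) ≤ q := by exact_mod_cast g.qpos
    have he0 := g.e0
    have he1 := g.e1
    -- the sequence
    have hy : ∀ a, N + a ≤ n → |(q : ℝ) * ((ξ - s) ^ N * ξ ^ a) -
        (LL x ((X - C (s : ℤ)) ^ N * X ^ a) : ℝ)| ≤ G * ε := by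
      intro a ha
      have hdeg : ((X - C (s : ℤ)) ^ N * X ^ a : ℤ[X]).natDegree ≤ n := by
        refine natDegree_mul_le.trans ((Nat.add_le_add ?_ ?_).trans ha)
        · refine natDegree_pow_le.trans ?_
          rw [natDegree_X_sub_C, mul_one]
        · exact natDegree_X_pow_le a
      have h3 := LL_err g _ hdeg
      have h4 : aeval ξ ((X - C (s : ℤ)) ^ N * X ^ a : ℤ[X]) = (ξ - s) ^ N * ξ ^ a := by
        simp
      rw [h4] at h3
      exact h3.trans (mul_le_mul_of_nonneg_right (hGb s hs a (by omega)) he0)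
    have hA : ∀ a, N + a ≤ n → |(LL x ((X - C (s : ℤ)) ^ N * X ^ a) : ℝ)| ≤ (G1 + G) * q := by
      intro a ha
      have h3 := hy a ha
      have h4 := hG1b s hs a (by omega)
      have h5 : |(q : ℝ) * ((ξ - s) ^ N * ξ ^ a)| ≤ q * G1 := by
        rw [abs_mul, abs_of_nonneg (by linarith : (0 : ℝ) ≤ q)]
        exact mul_le_mul_of_nonneg_left h4 (by linarith)
      have h6 : G * ε ≤ G * q := mul_le_mul_of_nonneg_left (by linarith) hG.le
      have h7 := abs_sub_abs_le_abs_sub (LL x ((X - C (s : ℤ)) ^ N * X ^ a) : ℝ)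
        ((q : ℝ) * ((ξ - s) ^ N * ξ ^ a))
      rw [abs_sub_comm] at h7
      nlinarith
    have hδ : ∀ a, N + (a + 1) ≤ n → |(LL x ((X - C (s : ℤ)) ^ N * X ^ (a + 1)) : ℝ) -
        ξ * (LL x ((X - C (s : ℤ)) ^ N * X ^ a) : ℝ)| ≤ (1 + |ξ|) * G * ε := by
      intro a ha
      have h3 := hy (a + 1) ha
      have h4 := hy a (by omega)
      have e1 : (LL x ((X - C (s : ℤ)) ^ N * X ^ (a + 1)) : ℝ) -
          ξ * (LL x ((X - C (s : ℤ)) ^ N * X ^ a) : ℝ) =
          -((q : ℝ) * ((ξ - s) ^ N * ξ ^ (a + 1)) -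
            (LL x ((X - C (s : ℤ)) ^ N * X ^ (a + 1)) : ℝ)) +
          ξ * ((q : ℝ) * ((ξ - s) ^ N * ξ ^ a) - (LL x ((X - C (s : ℤ)) ^ N * X ^ a) : ℝ)) := by
        ring
      rw [e1]
      refine (abs_add_le _ _).trans ?_
      rw [abs_neg, abs_mul]
      have h5 : |ξ| * |(q : ℝ) * ((ξ - s) ^ N * ξ ^ a) -
          (LL x ((X - C (s : ℤ)) ^ N * X ^ a) : ℝ)| ≤ |ξ| * (G * ε) :=
        mul_le_mul_of_nonneg_left h4 (abs_nonneg _)
      nlinarith
    have hdet := det_small r' ((Hk x (r' + 1) ((X - C (s : ℤ)) ^ N)).map (Int.castRingHom ℝ)) ξ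
      ((G1 + G) * q) ((1 + |ξ|) * G * ε) (by positivity) (by positivity) (by
        intro j
        have e1 : ((Hk x (r' + 1) ((X - C (s : ℤ)) ^ N)).map (Int.castRingHom ℝ)) 0 j =
            (LL x ((X - C (s : ℤ)) ^ N * X ^ (j : ℕ)) : ℝ) := by
          simp [Hk]
        rw [e1]
        have := j.2
        exact hA _ (by omega)) (by
        intro i j
        have e1 : ((Hk x (r' + 1) ((X - C (s : ℤ)) ^ N)).map (Int.castRingHom ℝ)) i.succ j =
            (LL x ((X - C (s : ℤ)) ^ N * X ^ ((i : ℕ) + j + 1)) : ℝ) := by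
          simp only [Hk, Matrix.map_apply, Matrix.of_apply, Fin.val_succ, eq_intCast]
          rw [show (i : ℕ) + 1 + (j : ℕ) = (i : ℕ) + j + 1 by omega]
        have e2 : ((Hk x (r' + 1) ((X - C (s : ℤ)) ^ N)).map (Int.castRingHom ℝ)) i.castSucc j =
            (LL x ((X - C (s : ℤ)) ^ N * X ^ ((i : ℕ) + j)) : ℝ) := by
          simp only [Hk, Matrix.map_apply, Matrix.of_apply, Fin.val_castSucc, eq_intCast]
        rw [e1, e2]
        have h5 := i.2
        have h6 := j.2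
        exact hδ _ (by omega))
    have e3 : ((Hk x (r' + 1) ((X - C (s : ℤ)) ^ N)).det : ℝ) =
        ((Hk x (r' + 1) ((X - C (s : ℤ)) ^ N)).map (Int.castRingHom ℝ)).det := by
      rw [← RingHom.mapMatrix_apply, ← RingHom.map_det]
      rfl
    rw [e3]
    refine hdet.trans (le_of_eq ?_)
    rw [Nat.add_sub_cancel, mul_pow]
    ring

end MP637
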