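import Pool.Agent.Work.MP_637dc3_nt.D.Defs
import Pool.Agent.Work.MP_637dc3_nt.D.DetSmall

/-! MP_637dc3_nt, dichotomy theorem, module D/ExistsAnn, size M.

Existence of an annihilating polynomial of degree at most `k = (n + 1) / 2`.

PROOF. `M` = the integer `(k+1) x (k+1)` matrix with `M i j = x (i + j)` if `i + k ≤ n` and `0` otherwise. Claim: `det M = 0`.
If `n` is odd, `n = 2k - 1`, the row `i = k` is zero (`Matrix.det_eq_zero_of_row_eq_zero`). If `n = 2k` is even (`n / 2 = k`), `M i j = x (i + j)` for all `i, j ≤ k`;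
cast to `ℝ`: `|x j| ≤ q B + 1 ≤ q (B + 1)` with `B ≥ |ξ|^j` for all `j ≤ n`, and `|x (i + 1 + j) - ξ x (i + j)| ≤ (1 + |ξ|) ε` (`g.err` twice), so by `det_small`
`|det M| ≤ (k+1)! (B + 1) (1 + |ξ|)^k (q ε^k) < 1` if `K` is this constant; an integer of absolute value `< 1` is `0`.
`Matrix.exists_mulVec_eq_zero_iff` gives `v ≠ 0` with `M.mulVec v = 0`. `P = ∑ j, C (v j) * X^j` (coefficients `v j`), `P ≠ 0`, degree `≤ k`, and
`LL x (X^i * P) = ∑ j, v j * x (i + j) = 0` for `i + k ≤ n`; for `h` with `h.natDegree + k ≤ n` write `h = ∑ C (h_i) * X^i` (`Polynomial.as_sum_range'`) and use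
linearity (`LL_C_mul`). -/

set_option autoImplicit false

open Polynomial

namespace MP637

/-- the matrix -/
private def eaM (x : ℕ → ℤ) (n k : ℕ) : Matrix (Fin (k + 1)) (Fin (k + 1)) ℤ :=
  Matrix.of fun i j => if (i : ℕ) + k ≤ n then x (i + j) else 0

private theorem ea_ann (x : ℕ → ℤ) (n k : ℕ) (hn : n ≤ 2 * k) (hdet : (eaM x n k).det = 0) :
    ∃ P, Ann x n k P := by
  obtain ⟨v, hv, hMv⟩ := Matrix.exists_mulVec_eq_zero_iff.2 hdet
  have hcoeff : ∀ j : Fin (k + 1),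
      (∑ i : Fin (k + 1), C (v i) * X ^ (i : ℕ) : ℤ[X]).coeff (j : ℕ) = v j := by
    intro j
    rw [Polynomial.finsetSum_coeff, Finset.sum_eq_single j]
    · simp
    · intro i _ hij
      rw [coeff_C_mul, coeff_X_pow, if_neg, mul_zero]
      exact fun h => hij (Fin.ext h.symm)
    · simp
  have hX : ∀ i : ℕ, i + k ≤ n →
      LL x (X ^ i * (∑ j : Fin (k + 1), C (v j) * X ^ (j : ℕ) : ℤ[X])) = 0 := by
    intro i hi
    have h1 : X ^ i * (∑ j : Fin (k + 1), C (v j) * X ^ (j : ℕ) : ℤ[X]) =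
        ∑ j : Fin (k + 1), C (v j) * X ^ (i + (j : ℕ)) := by
      rw [Finset.mul_sum]
      refine Finset.sum_congr rfl fun j _ => ?_
      rw [pow_add]
      ring
    rw [h1, map_sum]
    have h2 := congrFun hMv ⟨i, by omega⟩
    rw [Matrix.mulVec, dotProduct, Pi.zero_apply] at h2
    rw [← h2]
    refine Finset.sum_congr rfl fun j _ => ?_
    rw [LL_C_mul, LL_X_pow, eaM, Matrix.of_apply, if_pos hi, mul_comm]
  refine ⟨∑ j : Fin (k + 1), C (v j) * X ^ (j : ℕ), ?_, ?_, ?_⟩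
  · intro h0
    apply hv
    funext j
    rw [← hcoeff j, h0, coeff_zero, Pi.zero_apply]
  · refine Polynomial.natDegree_sum_le_of_forall_le _ _ fun j _ => ?_
    refine (natDegree_C_mul_X_pow_le _ _).trans ?_
    have := j.2
    omega
  · intro h hh
    conv_lhs => rw [h.as_sum_range_C_mul_X_pow, Finset.sum_mul, map_sum]
    refine Finset.sum_eq_zero fun i hi => ?_
    rw [Finset.mem_range] at hi
    rw [mul_assoc, LL_C_mul, hX i (by omega), mul_zero]

theorem exists_ann (ξ : ℝ) (n : ℕ) (hn : 1 ≤ n) :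
    ∃ K : ℝ, 0 < K ∧ ∀ (q : ℕ) (ε : ℝ) (x : ℕ → ℤ), Gp ξ n q ε x →
      (n % 2 = 0 → K * ((q : ℝ) * ε ^ (n / 2)) < 1) → ∃ P, Ann x n ((n + 1) / 2) P := by
  set k := (n + 1) / 2 with hk
  have hB0 : (0 : ℝ) < (1 + |ξ|) ^ n := by positivity
  refine ⟨((k + 1).factorial : ℝ) * (((1 + |ξ|) ^ n + 1) * (1 + |ξ|) ^ k), by positivity, ?_⟩
  intro q ε x g hsmall
  refine ea_ann x n k (by omega) ?_
  rcases Nat.mod_two_eq_zero_or_one n with hpar | hpar
  · -- even
    have hn2 : n = 2 * k := by omega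
    have hk2 : n / 2 = k := by omega
    have hs := hsmall hpar
    rw [hk2] at hs
    have hq1 : (1 : ℝ) ≤ q := by exact_mod_cast g.qpos
    have hM : ∀ i j : Fin (k + 1), (eaM x n k).map (Int.cast : ℤ → ℝ) i j = (x (i + j) : ℝ) := by
      intro i j
      rw [Matrix.map_apply, eaM, Matrix.of_apply, if_pos]
      have := i.2
      omega
    have h1 := det_small k ((eaM x n k).map (Int.cast : ℤ → ℝ)) ξ (q * ((1 + |ξ|) ^ n + 1))
      ((1 + |ξ|) * ε) (by positivity) (mul_nonneg (by positivity) g.e0) ?_ ?_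
    · have h2 : (((eaM x n k).map (Int.cast : ℤ → ℝ)).det) = (((eaM x n k).det : ℤ) : ℝ) :=
        (RingHom.map_det (Int.castRingHom ℝ) (eaM x n k)).symm
      rw [h2] at h1
      have h3 : |(((eaM x n k).det : ℤ) : ℝ)| < 1 := by
        refine lt_of_le_of_lt h1 (lt_of_le_of_lt (le_of_eq ?_) hs)
        rw [mul_pow]
        ring
      have h4 : |(eaM x n k).det| < 1 := by exact_mod_cast h3
      exact Int.abs_lt_one_iff.1 h4
    · intro j
      rw [hM, Fin.val_zero, zero_add]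
      have hj : (j : ℕ) ≤ n := by
        have := j.2
        omega
      have he := g.err j hj
      have hξ : |ξ ^ (j : ℕ)| ≤ (1 + |ξ|) ^ n := by
        rw [abs_pow]
        calc |ξ| ^ (j : ℕ) ≤ (1 + |ξ|) ^ (j : ℕ) :=
              pow_le_pow_left₀ (abs_nonneg _) (by linarith [abs_nonneg ξ]) _
          _ ≤ (1 + |ξ|) ^ n := pow_le_pow_right₀ (by linarith [abs_nonneg ξ]) hj
      calc |(x j : ℝ)| = |(q : ℝ) * ξ ^ (j : ℕ) - ((q : ℝ) * ξ ^ (j : ℕ) - (x j : ℝ))| := by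
            rw [sub_sub_cancel]
        _ ≤ |(q : ℝ) * ξ ^ (j : ℕ)| + |(q : ℝ) * ξ ^ (j : ℕ) - (x j : ℝ)| := abs_sub _ _
        _ ≤ q * (1 + |ξ|) ^ n + 1 := by
            rw [abs_mul, abs_of_nonneg (by linarith : (0 : ℝ) ≤ q)]
            have := mul_le_mul_of_nonneg_left hξ (by linarith : (0 : ℝ) ≤ q)
            linarith [g.e1]
        _ ≤ q * ((1 + |ξ|) ^ n + 1) := by linarith
    · intro i j
      rw [hM, hM, Fin.val_succ, Fin.val_castSucc]
      have hi := i.2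
      have hj := j.2
      have he1 := g.err ((i : ℕ) + 1 + j) (by omega)
      have he2 := g.err ((i : ℕ) + j) (by omega)
      have hid : (x ((i : ℕ) + 1 + j) : ℝ) - ξ * (x ((i : ℕ) + j) : ℝ) =
          ξ * ((q : ℝ) * ξ ^ ((i : ℕ) + j) - (x ((i : ℕ) + j) : ℝ)) -
            ((q : ℝ) * ξ ^ ((i : ℕ) + 1 + j) - (x ((i : ℕ) + 1 + j) : ℝ)) := by
        have : ξ ^ ((i : ℕ) + 1 + j) = ξ * ξ ^ ((i : ℕ) + j) := by
          rw [← pow_succ']
          congr 1
          omega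
        rw [this]
        ring
      rw [hid]
      calc |ξ * ((q : ℝ) * ξ ^ ((i : ℕ) + j) - (x ((i : ℕ) + j) : ℝ)) -
            ((q : ℝ) * ξ ^ ((i : ℕ) + 1 + j) - (x ((i : ℕ) + 1 + j) : ℝ))|
          ≤ |ξ * ((q : ℝ) * ξ ^ ((i : ℕ) + j) - (x ((i : ℕ) + j) : ℝ))| +
            |(q : ℝ) * ξ ^ ((i : ℕ) + 1 + j) - (x ((i : ℕ) + 1 + j) : ℝ)| := abs_sub _ _
        _ ≤ |ξ| * ε + ε := by
            rw [abs_mul]
            have := mul_le_mul_of_nonneg_left he2 (abs_nonneg ξ)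
            linarith
        _ = (1 + |ξ|) * ε := by ring
  · -- odd
    refine Matrix.det_eq_zero_of_row_eq_zero (Fin.last k) fun j => ?_
    rw [eaM, Matrix.of_apply, if_neg]
    rw [Fin.val_last]
    omega

end MP637
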