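import Pool.Agent.Work.MP_637dc3_nt.D.Defs

/-! MP_637dc3_nt, dichotomy theorem, module D/Nonvan, size M.

A Hankel determinant is not zero if `r` is minimal.

PROOF. `N = n + 2 - 2 r ≥ 1`. Suppose the determinant is `0`: there is `v ≠ 0` with `(Hk ..).mulVec v = 0` (`Matrix.exists_mulVec_eq_zero_iff`). `g = ∑ j : Fin r, C (v j) * X^j`,
`g ≠ 0`, `g.natDegree ≤ r - 1`, and `LL x ((X - C s0)^N * X^i * g) = 0` for `i < r`, hence (linearity) `LL x ((X - C s0)^N * g * F) = 0` for all `F` with
`F.natDegree ≤ r - 1`. CLAIM, induction on `t ≤ N`: `LL x ((X - C s0)^(N - t) * g * F) = 0` for all `F` with `F.natDegree ≤ r - 1 + t`. Step `t → t + 1 ≤ N`: let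
`F.natDegree ≤ r + t`. The polynomial `C (P.eval s0) * F - C (F.eval s0) * P` vanishes at `s0`, so it is `(X - C s0) * F1` (`dvd_iff_isRoot`) with
`F1.natDegree ≤ r - 1 + t` (or `F1 = 0`; `P.natDegree ≤ r`). By the induction hypothesis `LL x ((X - C s0)^(N-t-1) * g * ((X - C s0) * F1)) = 0`, and
`LL x ((X - C s0)^(N-t-1) * g * P) = 0` by `hP` because `(N - t - 1) + (r - 1) + r ≤ n`. So `P.eval s0 * LL x ((X - C s0)^(N-t-1) * g * F) = 0`, and `P.eval s0 ≠ 0`.
For `t = N`: `LL x (g * F) = 0` for `F.natDegree ≤ n + 1 - r`, i.e. `Ann x n (r - 1) g`, against `hmin`. -/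

set_option autoImplicit false

open Polynomial

namespace MP637

private theorem base_aux {x : ℕ → ℤ} {r : ℕ} (W : ℤ[X]) (v : Fin r → ℤ)
    (hv : (Hk x r W).mulVec v = 0) (F : ℤ[X]) (hF : F.natDegree < r) :
    LL x (W * (∑ j : Fin r, C (v j) * X ^ (j : ℕ)) * F) = 0 := by
  have hFs : ∑ i : Fin r, C (F.coeff i) * X ^ (i : ℕ) = F := by
    rw [Fin.sum_univ_eq_sum_range (fun j => C (F.coeff j) * X ^ j) r]
    exact (F.as_sum_range_C_mul_X_pow' hF).symm
  conv_lhs => rw [← hFs, Finset.mul_sum, map_sum]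
  refine Finset.sum_eq_zero fun i _ => ?_
  have h1 : W * (∑ j : Fin r, C (v j) * X ^ (j : ℕ)) * (C (F.coeff i) * X ^ (i : ℕ)) =
      C (F.coeff i) * (∑ j : Fin r, C (v j) * (W * X ^ ((i : ℕ) + (j : ℕ)))) := by
    rw [Finset.mul_sum, Finset.mul_sum, Finset.sum_mul]
    refine Finset.sum_congr rfl fun j _ => ?_
    ring
  rw [h1, LL_C_mul, map_sum]
  have h2 := congrFun hv i
  rw [Matrix.mulVec, dotProduct] at h2
  have h3 : ∑ j : Fin r, LL x (C (v j) * (W * X ^ ((i : ℕ) + (j : ℕ)))) = 0 := by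
    refine Eq.trans ?_ h2
    refine Finset.sum_congr rfl fun j _ => ?_
    rw [LL_C_mul, mul_comm]
    rfl
  rw [h3, mul_zero]

theorem det_ne_zero {x : ℕ → ℤ} {n r : ℕ} {P : ℤ[X]} (hr : 1 ≤ r) (h2 : 2 * r ≤ n + 1)
    (hP : Ann x n r P) (hmin : ∀ g, ¬ Ann x n (r - 1) g) (s0 : ℤ) (hs : P.eval s0 ≠ 0) :
    (Hk x r ((X - C s0) ^ (n + 2 - 2 * r))).det ≠ 0 := by
  intro hdet
  obtain ⟨v, hv0, hv⟩ := Matrix.exists_mulVec_eq_zero_iff.2 hdet
  set N := n + 2 - 2 * r with hN
  set g : ℤ[X] := ∑ j : Fin r, C (v j) * X ^ (j : ℕ) with hg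
  have hgc : ∀ j : Fin r, g.coeff j = v j := by
    intro j
    rw [hg, finsetSum_coeff, Finset.sum_eq_single j]
    · simp
    · intro b _ hb
      rw [coeff_C_mul, coeff_X_pow, if_neg, mul_zero]
      intro h
      exact hb (Fin.ext h.symm)
    · intro h
      exact absurd (Finset.mem_univ _) h
  have hg0 : g ≠ 0 := by
    intro h
    apply hv0
    ext j
    rw [← hgc j, h]
    simp
  have hgd : g.natDegree ≤ r - 1 := by
    rw [hg]
    refine natDegree_sum_le_of_forall_le _ _ fun j _ => ?_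
    refine (natDegree_C_mul_X_pow_le _ _).trans ?_
    have := j.2
    omega
  have claim : ∀ t ≤ N, ∀ F : ℤ[X], F.natDegree ≤ r - 1 + t →
      LL x ((X - C s0) ^ (N - t) * g * F) = 0 := by
    intro t
    induction t with
    | zero =>
      intro _ F hF
      exact base_aux _ v hv F (by omega)
    | succ t ih =>
      intro ht F hF
      have hroot : (X - C s0) ∣ C (P.eval s0) * F - C (F.eval s0) * P := by
        rw [dvd_iff_isRoot, IsRoot.def]
        simp [mul_comm]
      obtain ⟨F1, hF1⟩ := hroot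
      have hF1d : F1.natDegree ≤ r - 1 + t := by
        rcases eq_or_ne F1 0 with h | h
        · rw [h]
          simp
        · have h3 : ((X - C s0) * F1).natDegree = 1 + F1.natDegree := by
            rw [(monic_X_sub_C s0).natDegree_mul' h, natDegree_X_sub_C]
          have h4 : (C (P.eval s0) * F - C (F.eval s0) * P).natDegree ≤ r + t := by
            refine (natDegree_sub_le _ _).trans (max_le ?_ ?_)
            · exact (natDegree_C_mul_le _ _).trans (by omega)
            · exact (natDegree_C_mul_le _ _).trans (by have := hP.2.1; omega)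
          rw [hF1, h3] at h4
          omega
      have h5 := ih (by omega) F1 hF1d
      have h6 : LL x ((X - C s0) ^ (N - (t + 1)) * g * P) = 0 := by
        apply hP.2.2
        have h7 : ((X - C s0) ^ (N - (t + 1)) * g).natDegree ≤ (N - (t + 1)) + (r - 1) := by
          refine natDegree_mul_le.trans (Nat.add_le_add ?_ hgd)
          refine natDegree_pow_le.trans ?_
          rw [natDegree_X_sub_C, mul_one]
        omega
      have h8 : C (P.eval s0) * ((X - C s0) ^ (N - (t + 1)) * g * F) =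
          (X - C s0) ^ (N - t) * g * F1 + C (F.eval s0) * ((X - C s0) ^ (N - (t + 1)) * g * P) := by
        have h9 : C (P.eval s0) * F = (X - C s0) * F1 + C (F.eval s0) * P := by
          rw [← hF1]; ring
        have h10 : N - t = N - (t + 1) + 1 := by omega
        rw [h10, pow_succ]
        linear_combination ((X - C s0) ^ (N - (t + 1)) * g) * h9
      have h11 := congrArg (LL x) h8
      rw [LL_C_mul, map_add, LL_C_mul, h5, h6, mul_zero, add_zero] at h11
      exact (mul_eq_zero.1 h11).resolve_left hs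
  apply hmin g
  refine ⟨hg0, hgd, fun h hh => ?_⟩
  have h12 := claim N le_rfl h (by omega)
  rw [Nat.sub_self, pow_zero, one_mul, mul_comm] at h12
  exact h12

end MP637
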