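import Pool.Agent.Work.MP_637dc3_nt.D.Defs

/-! MP_637dc3_nt, dichotomy theorem, module D/Prim, size S.

An annihilating polynomial may be taken primitive.

PROOF. `P = C P.content * P.primPart` (`eq_C_content_mul_primPart`), `content ≠ 0`, `natDegree_primPart`, `isPrimitive_primPart`; `LL x (h * P) = content * LL x (h * primPart)`
(`LL_C_mul`), and `ℤ` has no zero divisors. -/

set_option autoImplicit false

open Polynomial

namespace MP637

theorem exists_prim {x : ℕ → ℤ} {n r : ℕ} {P : ℤ[X]} (h : Ann x n r P) :
    ∃ P' : ℤ[X], P'.IsPrimitive ∧ Ann x n r P' := by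
  obtain ⟨h0, h1, h2⟩ := h
  have hc : P.content ≠ 0 := fun hc => h0 (content_eq_zero_iff.1 hc)
  refine ⟨P.primPart, P.isPrimitive_primPart, P.primPart_ne_zero, ?_, fun g hg => ?_⟩
  · rw [natDegree_primPart]
    exact h1
  · have h3 := h2 g hg
    have h4 : g * P = C P.content * (g * P.primPart) := by
      conv_lhs => rw [P.eq_C_content_mul_primPart]
      ring
    rw [h4, LL_C_mul] at h3
    exact (mul_eq_zero.1 h3).resolve_left hc

end MP637
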