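import Pool.Agent.Work.MP_637dc3_nt.D.Defs

/-! MP_637dc3_nt, dichotomy theorem, module D/PrimDvd, size M.

If `D0 Q(s)` is divisible by `m0` at many consecutive integers and `Q` is primitive then `m0` divides `V D0`.

PROOF. `V` = determinant of the Vandermonde matrix of the nodes `0, .., M` (`Matrix.det_vandermonde_ne_zero_iff`: nonzero). Let `c` be the vector of the coefficients of `D0 Q` (indices
`0..M`). `(vandermonde).mulVec c` is the vector of the values `D0 Q(s)`, all divisible by `m0`; multiply by the adjugate: `V * c j` is an integer combination of these values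
(`Matrix.adjugate_mul`), so `m0 ∣ V * D0 * Q.coeff j` for all `j`. Hence `C m0 ∣ C (V * D0) * Q` (`C_dvd_iff_dvd_coeff`), so `m0` divides the content
(`dvd_content_iff_C_dvd`), which is associated to `V * D0` (`content_C_mul`, `IsPrimitive.content_eq_one`, `normalize`, `dvd_normalize_iff`). -/

set_option autoImplicit false

open Polynomial

namespace MP637

theorem prim_dvd (M : ℕ) : ∃ V : ℤ, V ≠ 0 ∧ ∀ Q : ℤ[X], Q.IsPrimitive → Q.natDegree ≤ M →
    ∀ m0 D0 : ℤ, (∀ s : ℕ, s ≤ M → m0 ∣ D0 * Q.eval (s : ℤ)) → m0 ∣ D0 * V := by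
  let A : Matrix (Fin (M + 1)) (Fin (M + 1)) ℤ := Matrix.vandermonde (fun i => ((i : ℕ) : ℤ))
  refine ⟨A.det, ?_, ?_⟩
  · rw [Matrix.det_vandermonde_ne_zero_iff]
    intro i j hij
    have hij' : ((i : ℕ) : ℤ) = ((j : ℕ) : ℤ) := hij
    exact Fin.ext (by exact_mod_cast hij')
  · intro Q hQ hd m0 D0 h
    have h1 : ∀ i, m0 ∣ (A.mulVec (fun j => D0 * Q.coeff j)) i := by
      intro i
      have e1 : (A.mulVec (fun j => D0 * Q.coeff j)) i = D0 * Q.eval ((i : ℕ) : ℤ) := by
        rw [Polynomial.eval_eq_sum_range' (Nat.lt_succ_of_le hd), Matrix.mulVec, dotProduct,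
          Finset.sum_range, Finset.mul_sum]
        refine Finset.sum_congr rfl fun j _ => ?_
        simp only [A, Matrix.vandermonde_apply]
        ring
      rw [e1]
      exact h i (Nat.lt_succ_iff.1 i.2)
    have h2 : ∀ j : Fin (M + 1), m0 ∣ A.det * (D0 * Q.coeff j) := by
      intro j
      have e2 : A.det * (D0 * Q.coeff j) =
          (A.adjugate.mulVec (A.mulVec (fun j : Fin (M + 1) => D0 * Q.coeff j))) j := by
        rw [Matrix.mulVec_mulVec, Matrix.adjugate_mul, Matrix.smul_mulVec, Matrix.one_mulVec,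
          Pi.smul_apply, smul_eq_mul]
      rw [e2, Matrix.mulVec, dotProduct]
      exact Finset.dvd_sum fun i _ => Dvd.dvd.mul_left (h1 i) _
    have h3 : C m0 ∣ C (A.det * D0) * Q := by
      rw [C_dvd_iff_dvd_coeff]
      intro j
      rw [coeff_C_mul]
      by_cases hj : j < M + 1
      · have := h2 ⟨j, hj⟩
        rwa [← mul_assoc] at this
      · rw [coeff_eq_zero_of_natDegree_lt (by omega), mul_zero]
        exact dvd_zero _
    rw [← dvd_content_iff_C_dvd, content_C_mul, hQ.content_eq_one, mul_one, dvd_normalize_iff] at h3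
    rwa [mul_comm] at h3

end MP637
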