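import Pool.Agent.Work.MP_637dc3_nt.D.Defs
import Pool.Agent.Work.MP_637dc3_nt.D.ExistsAnn
import Pool.Agent.Work.MP_637dc3_nt.D.Prim
import Pool.Agent.Work.MP_637dc3_nt.D.Nonvan
import Pool.Agent.Work.MP_637dc3_nt.D.DetIter
import Pool.Agent.Work.MP_637dc3_nt.D.PrimDvd
import Pool.Agent.Work.MP_637dc3_nt.D.DetLe
import Pool.Agent.Work.MP_637dc3_nt.D.Coeff

/-! MP_637dc3_nt, dichotomy theorem: annihilating polynomials of small height. -/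

set_option autoImplicit false

open Polynomial

namespace MP637

theorem isPrimitive_pow {P : ℤ[X]} (hP : P.IsPrimitive) (N : ℕ) : (P ^ N).IsPrimitive := by
  induction N with
  | zero => simp
  | succ N ih => rw [pow_succ]; exact ih.mul hP

theorem height_r (ξ : ℝ) (n r : ℕ) (hr : 1 ≤ r) (h2 : 2 * r ≤ n + 1) :
    ∃ K : ℝ, 0 < K ∧ ∀ (q : ℕ) (ε : ℝ) (x : ℕ → ℤ), Gp ξ n q ε x →
      ∀ P : ℤ[X], P.IsPrimitive → Ann x n r P → (∀ g, ¬ Ann x n (r - 1) g) →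
        ∀ j, |(P.coeff j : ℝ)| ^ (n + 2 - 2 * r) ≤ K * ((q : ℝ) * ε ^ (r - 1)) := by
  obtain ⟨Kd, hKd, hd⟩ := det_le ξ n r hr h2
  obtain ⟨Kc, hKc, hc⟩ := coeff_le r
  obtain ⟨V, hV, hVd⟩ := prim_dvd (r * (n + 2 - 2 * r))
  have hV0 : (0 : ℝ) < |(V : ℝ)| := abs_pos.2 (by exact_mod_cast hV)
  refine ⟨Kc ^ (n + 2 - 2 * r) * (|(V : ℝ)| * Kd), by positivity, ?_⟩
  intro q ε x g P hprim hP hmin j
  obtain ⟨s, hs, hcoef⟩ := hc P hP.2.1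
  have hPs : P.eval (s : ℤ) ≠ 0 := by
    intro h0
    apply hP.1
    ext i
    have h1 := hcoef i
    rw [h0] at h1
    simp only [Int.cast_zero, abs_zero, mul_zero] at h1
    have h2 := abs_nonpos_iff.1 h1
    rw [coeff_zero]
    exact_mod_cast h2
  have hD0 := det_ne_zero hr h2 hP hmin (s : ℤ) hPs
  have hdvd : P.eval (s : ℤ) ^ (n + 2 - 2 * r) ∣
      (Hk x r ((X - C (s : ℤ)) ^ (n + 2 - 2 * r))).det * V := by
    refine hVd (P ^ (n + 2 - 2 * r)) (isPrimitive_pow hprim _) ?_ _ _ ?_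
    · refine natDegree_pow_le.trans ?_
      rw [mul_comm]
      exact Nat.mul_le_mul_right _ hP.2.1
    · intro s' _
      rw [eval_pow, ← det_iter hr h2 hP (s' : ℤ) (s : ℤ)]
      exact Dvd.intro_left _ rfl
  have hne : (Hk x r ((X - C (s : ℤ)) ^ (n + 2 - 2 * r))).det * V ≠ 0 := mul_ne_zero hD0 hV
  have hle : |P.eval (s : ℤ) ^ (n + 2 - 2 * r)| ≤
      |(Hk x r ((X - C (s : ℤ)) ^ (n + 2 - 2 * r))).det * V| :=
    Int.le_of_dvd (abs_pos.2 hne) ((abs_dvd_abs _ _).2 hdvd)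
  have hle' : |((P.eval (s : ℤ) : ℤ) : ℝ)| ^ (n + 2 - 2 * r) ≤
      |((Hk x r ((X - C (s : ℤ)) ^ (n + 2 - 2 * r))).det : ℝ)| * |(V : ℝ)| := by
    have h3 : ((|P.eval (s : ℤ) ^ (n + 2 - 2 * r)| : ℤ) : ℝ) ≤
      ((|(Hk x r ((X - C (s : ℤ)) ^ (n + 2 - 2 * r))).det * V| : ℤ) : ℝ) := Int.cast_le.2 hle
    rw [Int.cast_abs, Int.cast_abs, Int.cast_pow, Int.cast_mul, abs_pow, abs_mul] at h3
    exact h3
  have hdd := hd q ε x g s hs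
  calc |(P.coeff j : ℝ)| ^ (n + 2 - 2 * r)
      ≤ (Kc * |((P.eval (s : ℤ) : ℤ) : ℝ)|) ^ (n + 2 - 2 * r) :=
        pow_le_pow_left₀ (abs_nonneg _) (hcoef j) _
    _ = Kc ^ (n + 2 - 2 * r) * |((P.eval (s : ℤ) : ℤ) : ℝ)| ^ (n + 2 - 2 * r) := by
        rw [mul_pow]
    _ ≤ Kc ^ (n + 2 - 2 * r) *
        (|((Hk x r ((X - C (s : ℤ)) ^ (n + 2 - 2 * r))).det : ℝ)| * |(V : ℝ)|) := by
        gcongr
    _ ≤ Kc ^ (n + 2 - 2 * r) * ((Kd * ((q : ℝ) * ε ^ (r - 1))) * |(V : ℝ)|) := by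
        gcongr
    _ = _ := by ring

theorem height (ξ : ℝ) (n : ℕ) (hn : 1 ≤ n) :
    ∃ K : ℝ, 0 < K ∧ ∀ (q : ℕ) (ε : ℝ) (x : ℕ → ℤ), Gp ξ n q ε x →
      (n % 2 = 0 → K * ((q : ℝ) * ε ^ (n / 2)) < 1) →
      ∃ (r : ℕ) (P : ℤ[X]), 1 ≤ r ∧ 2 * r ≤ n + 1 ∧ P.IsPrimitive ∧ Ann x n r P ∧
        ∀ j, |(P.coeff j : ℝ)| ^ (n + 2 - 2 * r) ≤ K * ((q : ℝ) * ε ^ (r - 1)) := by
  classical
  obtain ⟨Ka, hKa, ha⟩ := exists_ann ξ n hn
  have hall : ∀ r : ℕ, ∃ K : ℝ, 0 < K ∧ (1 ≤ r → 2 * r ≤ n + 1 →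
      ∀ (q : ℕ) (ε : ℝ) (x : ℕ → ℤ), Gp ξ n q ε x →
      ∀ P : ℤ[X], P.IsPrimitive → Ann x n r P → (∀ g, ¬ Ann x n (r - 1) g) →
        ∀ j, |(P.coeff j : ℝ)| ^ (n + 2 - 2 * r) ≤ K * ((q : ℝ) * ε ^ (r - 1))) := by
    intro r
    by_cases h : 1 ≤ r ∧ 2 * r ≤ n + 1
    · obtain ⟨K, hK, hK2⟩ := height_r ξ n r h.1 h.2
      exact ⟨K, hK, fun _ _ => hK2⟩
    · exact ⟨1, one_pos, fun h1 h2 => absurd ⟨h1, h2⟩ h⟩
  choose Kr hKr0 hKr using hall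
  have hsum : ∀ r, r ≤ n + 1 → Kr r ≤ ∑ i ∈ Finset.range (n + 2), Kr i := fun r hr =>
    Finset.single_le_sum (f := Kr) (fun i _ => (hKr0 i).le) (Finset.mem_range.2 (by omega))
  have hsum0 : 0 ≤ ∑ i ∈ Finset.range (n + 2), Kr i :=
    Finset.sum_nonneg (fun i _ => (hKr0 i).le)
  refine ⟨Ka + ∑ i ∈ Finset.range (n + 2), Kr i, by positivity, ?_⟩
  intro q ε x g hq
  have hqε : ∀ k : ℕ, 0 ≤ (q : ℝ) * ε ^ k := fun k =>
    mul_nonneg (Nat.cast_nonneg q) (pow_nonneg g.e0 k)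
  have hex : ∃ r, ∃ P, Ann x n r P := by
    refine ⟨(n + 1) / 2, ha q ε x g (fun h => lt_of_le_of_lt ?_ (hq h))⟩
    exact mul_le_mul_of_nonneg_right (by linarith) (hqε _)
  set r := Nat.find hex with hrdef
  obtain ⟨P0, hP0⟩ := Nat.find_spec hex
  rw [← hrdef] at hP0
  have hr1 : 1 ≤ r := by
    by_contra hcon
    have hr0 : r = 0 := by omega
    rw [hr0] at hP0
    obtain ⟨hne, hdeg, hann⟩ := hP0
    have h1 := eq_C_of_natDegree_le_zero hdeg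
    have h2 := hann 1 (by simp)
    rw [one_mul, h1, LL_C, g.x0] at h2
    rcases mul_eq_zero.1 h2 with h3 | h3
    · apply hne
      rw [h1, h3, C_0]
    · have := g.qpos
      have h4 : (q : ℤ) ≠ 0 := by exact_mod_cast (by omega : q ≠ 0)
      exact h4 h3
  have hr2 : 2 * r ≤ n + 1 := by
    have h1 : r ≤ (n + 1) / 2 := by
      apply Nat.find_min' hex
      exact ha q ε x g (fun h => lt_of_le_of_lt
        (mul_le_mul_of_nonneg_right (by linarith) (hqε _)) (hq h))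
    omega
  have hmin : ∀ gg, ¬ Ann x n (r - 1) gg := by
    intro gg hgg
    exact Nat.find_min hex (m := r - 1) (by omega) ⟨gg, hgg⟩
  obtain ⟨P, hprim, hP⟩ := exists_prim hP0
  refine ⟨r, P, hr1, hr2, hprim, hP, fun j => ?_⟩
  refine (hKr r hr1 hr2 q ε x g P hprim hP hmin j).trans ?_
  refine mul_le_mul_of_nonneg_right ?_ (hqε _)
  linarith [hsum r (by omega)]

end MP637
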